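import Pool.Agent.Lib.MP_80aaf5_lc.Alg6.Rows

/-!
# Statements, certificates, closed sets of queries
-/

set_option linter.unusedSectionVars false

namespace ESY.Alg6

open ESY ESY.Conv ESY.Few
open ESY.Alg2 (ln)
open ESY.Alg3 (Ls mem_Ls card_Ls Qy nm nm_inj ln_le_nm sum_biUnion_le)
open ESY.Alg4 (O0 O1 mem_O0 mem_O1)

variable [AE]

/-- the statement -/
def St (A : Oracle) (a : ℕ) (q : List Bool) : Prop := Tr (lw a.bodd A) a.div2 q

/-- the block has a full row -/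
def Full (A : Oracle) (v : List Bool) : Prop := cfg A v ∈ O1 (Sn v.length)

/-- no row of the block is full -/
def Emp (A : Oracle) (v : List Bool) : Prop := cfg A v ∈ O0 (Sn v.length)

theorem not_full {A : Oracle} {v : List Bool} (h : Emp A v) : ¬ Full A v := by
  intro h'
  have h1 := (mem_O0.1 h).2
  have h2 := (mem_O1.1 h').2
  rw [Finset.disjoint_iff_inter_eq_empty.1 h1] at h2
  exact absurd h2 (by decide)

theorem full_congr {A A' : Oracle} {v : List Bool}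
    (h : ∀ s : List Bool, s.length = lvl v → A s = A' s) : Full A v ↔ Full A' v := by
  unfold Full
  rw [cfg_congr h]

theorem emp_congr {A A' : Oracle} {v : List Bool}
    (h : ∀ s : List Bool, s.length = lvl v → A s = A' s) : Emp A v ↔ Emp A' v := by
  unfold Emp
  rw [cfg_congr h]

theorem ln_cn (a : ℕ) (q : List Bool) :
    ln a q * (bk (2 * ln a q) + 1) ≤ Cn (nm a q).length := by
  have h2 := ln_le_nm a q
  exact Nat.mul_le_mul (by omega) (Nat.succ_le_succ (bk_mono (by omega)))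

theorem ln_lvl (a : ℕ) (q : List Bool) : bk (2 * ln a q) < lvl (nm a q) := by
  have h2 := ln_le_nm a q
  have h3 := lvl_ge (nm a q)
  have h4 : bk (2 * ln a q) ≤ bk (2 * (nm a q).length) := bk_mono (by omega)
  omega

theorem st_congr {A A' : Oracle} {a : ℕ} {q : List Bool}
    (h : ∀ s : List Bool, s.length < lvl (nm a q) → A s = A' s) : St A a q ↔ St A' a q := by
  refine tr_congr fun s hs => lw_congr _ fun r hr => h r ?_
  have h1 := ln_lvl a q
  have h2 : s.length ≤ 2 * ln a q := hs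
  have h3 := bk_mono h2
  omega

/-- certificates -/
theorem exists_cert {A : Oracle} {a : ℕ} {q : List Bool} (h : St A a q) :
    ∃ c : Finset Qy, ∑ p ∈ c, wt p ≤ Cn (nm a q).length ∧ (∀ p ∈ c, ql p < lvl (nm a q)) ∧
      ∀ A', (∀ p ∈ c, qv p A' = qv p A) → St A' a q := by
  classical
  obtain ⟨w, hw, hacc⟩ := h
  have hl := asked_card (lw a.bodd A) (nu a.div2).1 (tb a.div2 q) (start (nu a.div2).1 q w)
  have ht : tb a.div2 q < ln a q := tb_lt_stm a.div2 q
  have hx : q.length < ln a q := x_lt_stm a.div2 q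
  have hlen : ∀ p ∈ (asked (lw a.bodd A) (nu a.div2).1 (tb a.div2 q)
      (start (nu a.div2).1 q w)).toFinset.image fun s => ((a.bodd, s) : Qy),
      bk p.2.length ≤ bk (2 * ln a q) := by
    intro p hp
    obtain ⟨s, hs, rfl⟩ := Finset.mem_image.1 hp
    have h1 := asked_start_len _ _ _ _ _ s (List.mem_toFinset.1 hs)
    have h2 : max q.length w.length ≤ ln a q := max_le hx.le (hw.trans ht.le)
    exact bk_mono (by simp only; omega)
  refine ⟨(asked (lw a.bodd A) (nu a.div2).1 (tb a.div2 q)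
      (start (nu a.div2).1 q w)).toFinset.image fun s => ((a.bodd, s) : Qy), ?_,
      fun p hp => ?_, fun A' hA' => ?_⟩
  · refine le_trans ?_ (ln_cn a q)
    refine (Finset.sum_le_card_nsmul _ _ (bk (2 * ln a q) + 1) fun p hp => ?_).trans ?_
    · exact Nat.succ_le_succ (hlen p hp)
    · rw [smul_eq_mul]
      exact Nat.mul_le_mul_right _
        (Finset.card_image_le.trans ((List.toFinset_card_le _).trans (hl.trans ht.le)))
  · exact lt_of_le_of_lt (hlen p hp) (ln_lvl a q)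
  · refine ⟨w, hw, (accepts_congr (O := lw a.bodd A) (O' := lw a.bodd A') fun s hs => ?_).2 hacc⟩
    exact hA' (a.bodd, s) (Finset.mem_image.2 ⟨s, List.mem_toFinset.2 hs, rfl⟩)

/-! ### closed sets of queries -/

/-- the queries that reach a level -/
def atl (Q : Finset Qy) (m : ℕ) : Finset Qy := Q.filter fun p => m ≤ ql p

/-- the full statement blocks of length `n` are ambiguous or certified -/
def Good (A : Oracle) (Q : Finset Qy) (n : ℕ) : Prop :=
  ∀ a q, (nm a q).length = n → St A a q →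
    (¬ ∃ f ∈ O0 (Sn (nm a q).length), ∀ p ∈ atl Q (lvl (nm a q)),
      ct p (nm a q) f = ct p (nm a q) (c1 (nm a q))) →
    ∀ A', (∀ p ∈ Q, ql p < lvl (nm a q) → qv p A' = qv p A) → St A' a q

theorem closure_step (A : Oracle) {n₀ D : ℕ} (hD : ∀ n, n₀ ≤ n → 2 * D ≤ 2 ^ Mn n) (k : ℕ) :
    ∀ Q₀ : Finset Qy, (k + 1) * (∑ p ∈ Q₀, wt p) ≤ (k + 2) * D →
      ∃ Q, Q₀ ⊆ Q ∧ (∀ n, k ≤ n → atl Q (lvn n) = atl Q₀ (lvn n)) ∧
      (∀ n < k, n₀ ≤ n → Good A Q n) ∧ ∑ p ∈ Q, wt p ≤ 2 * D := by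
  classical
  induction k with
  | zero =>
    intro Q₀ h
    exact ⟨Q₀, subset_rfl, fun _ _ => rfl, fun n hn => absurd hn (Nat.not_lt_zero n), by omega⟩
  | succ k ih =>
    intro Q₀ h
    by_cases hk : n₀ ≤ k
    swap
    · obtain ⟨Q, h1, h2, h3, h4⟩ := ih Q₀ (by
        have e1 : (k + 2) * ((k + 1) * ∑ p ∈ Q₀, wt p) ≤ (k + 2) * ((k + 2) * D) := by
          calc (k + 2) * ((k + 1) * ∑ p ∈ Q₀, wt p)
              = (k + 1) * ((k + 1 + 1) * ∑ p ∈ Q₀, wt p) := by ring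
            _ ≤ (k + 1) * ((k + 1 + 2) * D) := Nat.mul_le_mul_left _ h
            _ ≤ (k + 2) * ((k + 2) * D) := by nlinarith
        exact Nat.le_of_mul_le_mul_left e1 (by omega))
      exact ⟨Q, h1, fun n hn => h2 n (by omega), fun n hn hn' => absurd hn' (by omega), h4⟩
    have hW0 : ∑ p ∈ Q₀, wt p ≤ 2 * D := by
      have e1 : (k + 2) * ∑ p ∈ Q₀, wt p ≤ (k + 2) * (2 * D) := by
        refine h.trans ?_
        calc (k + 1 + 2) * D ≤ (2 * (k + 2)) * D := Nat.mul_le_mul_right _ (by omega)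
          _ = (k + 2) * (2 * D) := by ring
      exact Nat.le_of_mul_le_mul_left e1 (by omega)
    have hat0 : ∑ p ∈ atl Q₀ (lvn k), wt p ≤ ∑ p ∈ Q₀, wt p :=
      Finset.sum_le_sum_of_subset (Finset.filter_subset _ _)
    have hW : ∑ p ∈ atl Q₀ (lvn k), wt p ≤ 2 ^ Mn k := (hat0.trans hW0).trans (hD k hk)
    -- the blocks that need a certificate
    set Dk : Finset (List Bool) := (Ls k).filter fun v => (∃ a q, v = nm a q ∧ St A a q) ∧
      ¬ ∃ f ∈ O0 (Sn v.length), ∀ p ∈ atl Q₀ (lvn k), ct p v f = ct p v (c1 v) with hDk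
    have hDc : Mn k * Dk.card ≤ ∑ p ∈ atl Q₀ (lvn k), wt p :=
      c1_amb k hW Dk fun v hv => by
        obtain ⟨h1, h2, h3⟩ := Finset.mem_filter.1 hv
        exact ⟨mem_Ls.1 h1, h3⟩
    have hc : ∀ v : List Bool, ∃ c : Finset Qy, v ∈ Dk → (∀ p ∈ c, ql p < lvn k) ∧
        (∑ p ∈ c, wt p) ≤ Cn k ∧
        ∀ a q, v = nm a q → ∀ A', (∀ p ∈ c, qv p A' = qv p A) → St A' a q := by
      intro v
      by_cases hv : v ∈ Dk
      · obtain ⟨h1, ⟨a, q, rfl, h2⟩, h3⟩ := Finset.mem_filter.1 hv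
        obtain ⟨c, e1, e2, e3⟩ := exists_cert h2
        have hlen : (nm a q).length = k := mem_Ls.1 h1
        rw [hlen] at e1
        refine ⟨c, fun _ => ⟨fun p hp => ?_, e1, fun a' q' e A' hA' => ?_⟩⟩
        · have := e2 p hp
          rwa [lvl, hlen] at this
        · obtain ⟨rfl, rfl⟩ := nm_inj e
          exact e3 A' hA'
      · exact ⟨∅, fun h => absurd h hv⟩
    choose c hc using hc
    set Q₁ : Finset Qy := Q₀ ∪ Dk.biUnion c with hQ₁
    have hlow : ∀ p ∈ Dk.biUnion c, ql p < lvn k := by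
      intro p hp
      obtain ⟨v, hv, hp⟩ := Finset.mem_biUnion.1 hp
      exact (hc v hv).1 p hp
    have hat : ∀ n, k ≤ n → atl Q₁ (lvn n) = atl Q₀ (lvn n) := by
      intro n hn
      have hkn := lvn_mono hn
      ext p
      simp only [atl, Finset.mem_filter, hQ₁, Finset.mem_union]
      constructor
      · rintro ⟨h | hp, hpm⟩
        · exact ⟨h, hpm⟩
        · have := hlow p hp
          omega
      · rintro ⟨h, hpm⟩
        exact ⟨Or.inl h, hpm⟩
    have hw : (k + 1) * (∑ p ∈ Q₁, wt p) ≤ (k + 2) * D := by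
      have h1 : ∑ p ∈ Q₁, wt p ≤ ∑ p ∈ Q₀, wt p + ∑ p ∈ Dk.biUnion c, wt p := by
        rw [hQ₁, ← Finset.sum_union_inter]
        exact Nat.le_add_right _ _
      have h2 : ∑ p ∈ Dk.biUnion c, wt p ≤ ∑ v ∈ Dk, ∑ p ∈ c v, wt p :=
        sum_biUnion_le _ _ _
      have h3 : ∑ v ∈ Dk, ∑ p ∈ c v, wt p ≤ Dk.card * Cn k := by
        rw [← smul_eq_mul]
        exact Finset.sum_le_card_nsmul _ _ _ fun v hv => (hc v hv).2.1
      have h4 : (k + 1) * (k + 3) * (Dk.card * Cn k) ≤ ∑ p ∈ Q₀, wt p := by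
        calc (k + 1) * (k + 3) * (Dk.card * Cn k) = Mn k * Dk.card := by unfold Mn; ring
          _ ≤ _ := hDc.trans hat0
      have h5 : (k + 1) * (k + 3) * ∑ p ∈ Q₁, wt p ≤ (k + 2) * ((k + 2) * ∑ p ∈ Q₀, wt p) := by
        calc (k + 1) * (k + 3) * ∑ p ∈ Q₁, wt p
            ≤ (k + 1) * (k + 3) * (∑ p ∈ Q₀, wt p + Dk.card * Cn k) :=
              Nat.mul_le_mul_left _ (h1.trans (Nat.add_le_add_left (h2.trans h3) _))
          _ = (k + 1) * (k + 3) * ∑ p ∈ Q₀, wt p + (k + 1) * (k + 3) * (Dk.card * Cn k) := by ring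
          _ ≤ (k + 1) * (k + 3) * ∑ p ∈ Q₀, wt p + ∑ p ∈ Q₀, wt p := Nat.add_le_add_left h4 _
          _ = (k + 2) * ((k + 2) * ∑ p ∈ Q₀, wt p) := by ring
      have h6 : (k + 3) * ((k + 1) * ∑ p ∈ Q₁, wt p) ≤ (k + 3) * ((k + 2) * D) := by
        calc (k + 3) * ((k + 1) * ∑ p ∈ Q₁, wt p) = (k + 1) * (k + 3) * ∑ p ∈ Q₁, wt p := by ring
          _ ≤ (k + 2) * ((k + 2) * ∑ p ∈ Q₀, wt p) := h5
          _ ≤ (k + 2) * ((k + 3) * D) := Nat.mul_le_mul_left _ h
          _ = (k + 3) * ((k + 2) * D) := by ring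
      exact Nat.le_of_mul_le_mul_left h6 (by omega)
    obtain ⟨Q, h1, h2, h3, h4⟩ := ih Q₁ hw
    refine ⟨Q, Finset.subset_union_left.trans h1, fun n hn => (h2 n (by omega)).trans
      (hat n (by omega)), fun n hn hn' => ?_, h4⟩
    rcases Nat.lt_succ_iff_lt_or_eq.1 hn with hn | rfl
    · exact h3 n hn hn'
    · intro a q hlen hst hna A' hA'
      have hv : nm a q ∈ Dk := by
        rw [hDk, Finset.mem_filter, mem_Ls]
        refine ⟨hlen, ⟨a, q, rfl, hst⟩, fun hex => hna ?_⟩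
        rw [lvl, hlen, h2 n le_rfl, hat n le_rfl]
        rw [hlen] at hex
        exact hex
      refine (hc _ hv).2.2 a q rfl A' fun p hp => hA' p (h1 (Finset.mem_union_right _
        (Finset.mem_biUnion.2 ⟨_, hv, hp⟩))) ?_
      rw [lvl, hlen]
      exact (hc _ hv).1 p hp

/-- **Closure.** -/
theorem exists_closure (A : Oracle) {n₀ : ℕ} (Q₀ : Finset Qy)
    (hD : ∀ n, n₀ ≤ n → 2 * ∑ p ∈ Q₀, wt p ≤ 2 ^ Mn n) : ∃ Q, Q₀ ⊆ Q ∧
      (∀ n, n₀ ≤ n → Good A Q n) ∧ ∑ p ∈ Q, wt p ≤ 2 * ∑ p ∈ Q₀, wt p := by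
  classical
  obtain ⟨Q, h1, h2, h3, h4⟩ := closure_step A hD (max n₀ (Q₀.sup ql) + 1) Q₀
    (Nat.mul_le_mul_right _ (by omega))
  refine ⟨Q, h1, fun n hn => ?_, h4⟩
  by_cases hm : n < max n₀ (Q₀.sup ql) + 1
  · exact h3 n hm hn
  · intro a q hlen hst hna
    refine absurd ⟨(∅, ∅), mem_O0.2 ⟨⟨Finset.empty_subset _, Finset.empty_subset _⟩,
      Finset.disjoint_empty_left _⟩, fun p hp => ?_⟩ hna
    exfalso
    rw [lvl, hlen, h2 n (by omega)] at hp
    obtain ⟨e1, e2⟩ := Finset.mem_filter.1 hp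
    have e3 := Finset.le_sup (f := ql) e1
    have e4 : n ≤ lvn n := le_lvn n
    have e5 := le_max_right n₀ (Q₀.sup ql)
    omega

attribute [irreducible] Full Emp

end ESY.Alg6
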