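import Pool.Agent.Lib.MP_80aaf5_lc.Alg6.World
import Pool.Agent.Lib.MP_80aaf5_lc.Btw.Closure
import Pool.Agent.Lib.MP_b9add9_lc.Alg2.Pair
import Pool.Agent.Lib.MP_80aaf5_lc.Few.Generic
import Pool.Agent.Lib.MP_80aaf5_lc.Few.Defs

/-!
# The final argument
-/

set_option linter.unusedSectionVars false

namespace ESY.Alg6

open ESY ESY.Conv ESY.Few Set
open ESY.Alg2 (tp tp_inj tp_length tp_append app_tp ln hd_np)
open ESY.Alg3 (rs rs_inj' nm un AllOnes Flag0 Flag1 Flag2 hs fc SpecVM SpecPM SpecRED vn)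
open ESY.Alg4 (O0 O1 mem_O0 mem_O1 Jn)

variable [AE]

variable {X A : Oracle}

/-! ### rows of a world -/

theorem not_rowBit {s : List Bool} (h : ∀ t, s ≠ true :: true :: true :: t) : ¬ RowBit s := by
  rintro ⟨v, y, -, j, -, e⟩
  exact h _ e

theorem allOnes_Sn (hA : IsWorld X A) {v y : List Bool} (h : AllOnes Jn A v y) :
    y ∈ Sn v.length := by
  by_contra hne
  have h1 : ¬ RowBit (rs Jn v y 0) := by
    rintro ⟨v', y', hy', j', -, e⟩
    obtain ⟨rfl, rfl, -⟩ := rs_inj' e
    exact hne hy'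
  have h2 := h 0 (Nat.zero_le _)
  rw [hA.base _ h1] at h2
  have h3 : Bs X (rs Jn v y 0) = false := rfl
  rw [h3] at h2
  cases h2

theorem allOnes_length (hA : IsWorld X A) {v y : List Bool} (h : AllOnes Jn A v y) :
    y.length = Nn v :=
  (mem_Sn.1 (allOnes_Sn hA h)).1

theorem allOnes_iff (hA : IsWorld X A) {v y : List Bool} :
    AllOnes Jn A v y ↔ y ∈ (cfg A v).1 ∩ (cfg A v).2 := by
  unfold cfg
  rw [Finset.mem_inter, Finset.mem_filter, Finset.mem_filter]
  constructor
  · intro h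
    exact ⟨⟨allOnes_Sn hA h, h 0 (Nat.zero_le _)⟩, allOnes_Sn hA h, h 1 le_rfl⟩
  · rintro ⟨⟨-, h0⟩, -, h1⟩ j hj
    have hj' : j ≤ 1 := hj
    rcases Nat.le_one_iff_eq_zero_or_eq_one.1 hj' with rfl | rfl
    · exact h0
    · exact h1

theorem full_iff (hA : IsWorld X A) {v : List Bool} : Full A v ↔ ∃ y, AllOnes Jn A v y := by
  constructor
  · intro h
    unfold Full at h
    obtain ⟨y, hy⟩ := Finset.card_eq_one.1 (mem_O1.1 h).2
    exact ⟨y, (allOnes_iff hA).2 (by rw [hy]; exact Finset.mem_singleton_self y)⟩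
  · rintro ⟨y, hy⟩
    refine (hA.uniq v).resolve_left fun h => ?_
    unfold Emp at h
    have h1 := (allOnes_iff hA).1 hy
    rw [Finset.disjoint_iff_inter_eq_empty.1 (mem_O0.1 h).2] at h1
    exact absurd h1 (Finset.notMem_empty y)

theorem allOnes_uniq (hA : IsWorld X A) {v y y' : List Bool} (h : AllOnes Jn A v y)
    (h' : AllOnes Jn A v y') : y = y' := by
  have h0 := (full_iff hA).2 ⟨y, h⟩
  unfold Full at h0
  obtain ⟨z, hz⟩ := Finset.card_eq_one.1 (mem_O1.1 h0).2
  have h1 := (allOnes_iff hA).1 h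
  have h2 := (allOnes_iff hA).1 h'
  rw [hz, Finset.mem_singleton] at h1 h2
  rw [h1, h2]

theorem allOnes_mem (hA : IsWorld X A) {v y : List Bool} (h : AllOnes Jn A v y) (b : Bool) :
    b ∈ y := by
  obtain ⟨-, h1, h2⟩ := mem_Sn.1 (allOnes_Sn hA h)
  cases b
  · exact h2
  · exact h1

/-! ### flags -/

theorem flag0 (hA : IsWorld X A) : Flag0 ln A := by
  classical
  intro i a q
  rw [hA.base _ (not_rowBit fun t h => absurd (List.cons.inj (List.cons.inj h).2).1 (by decide))]
  change flg (false :: false :: _) = _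
  simp only [flg]
  refine decide_eq_decide.2 ⟨?_, fun h => ⟨i, a, q, rfl, h⟩⟩
  rintro ⟨i', a', q', e, h⟩
  obtain ⟨rfl, e'⟩ := Alg2.rep_inj e
  obtain ⟨rfl, rfl⟩ := Alg2.rep_inj e'
  exact h

theorem flag1 (hA : IsWorld X A) : Flag1 Nn A := by
  classical
  intro y v
  rw [hA.base _ (not_rowBit fun t h =>
    absurd (List.cons.inj (List.cons.inj (List.cons.inj h).2).2).1 (by decide))]
  change flg (true :: false :: _) = _
  simp only [flg]
  refine decide_eq_decide.2 ⟨?_, fun h => ⟨y, v, rfl, h⟩⟩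
  rintro ⟨y', v', e, h⟩
  obtain ⟨rfl, rfl⟩ := tp_inj e
  exact h

theorem flag2 (hA : IsWorld X A) : Flag2 Jn A := by
  classical
  intro i e
  rw [hA.base _ (not_rowBit fun t h => absurd (List.cons.inj (List.cons.inj h).2).1 (by decide))]
  change flg (false :: true :: _) = true ↔ _
  simp only [flg, decide_eq_true_eq]
  constructor
  · rintro ⟨α, y, v, h, hJ⟩
    obtain ⟨h1, h2⟩ := tp_inj h
    rw [← h1, List.length_replicate] at hJ
    exact ⟨y, v, h2, hJ⟩
  · rintro ⟨y, v, rfl, hJ⟩
    exact ⟨_, y, v, rfl, by rwa [List.length_replicate]⟩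

/-! ### the pair -/

/-- the two sets of the pair -/
def UV (A : Oracle) (b : Bool) : Set (List Bool) :=
  {x | ∃ w y v : List Bool, app w (true :: b :: x) = tp y (false :: v) ∧ AllOnes Jn A v y}

theorem tp_split : ∀ {l x y v : List Bool}, tp l x = tp y (false :: v) →
    ∃ h, y = l ++ h ∧ x = tp h (false :: v)
  | [], x, y, v, e => ⟨y, rfl, e⟩
  | c :: l, x, [], v, e => absurd (List.cons.inj e).1 (by decide)
  | c :: l, x, d :: y, v, e => by
    obtain ⟨e1, e2⟩ := List.cons.inj (List.cons.inj e).2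
    obtain ⟨h, h1, h2⟩ := tp_split e2
    exact ⟨h, by rw [e1, h1]; rfl, h2⟩

theorem uv_split {w x y v : List Bool} {b : Bool}
    (e : app w (true :: b :: x) = tp y (false :: v)) :
    ∃ h, y = w.reverse ++ b :: h ∧ x = tp h (false :: v) := by
  rw [app_tp, ← tp_append] at e
  obtain ⟨h, h1, h2⟩ := tp_split e
  exact ⟨h, by rw [h1, List.append_assoc]; rfl, h2⟩

theorem uv_mk {l h v : List Bool} {b : Bool} (ho : AllOnes Jn A v (l ++ b :: h)) :
    tp h (false :: v) ∈ UV A b := by
  refine ⟨l.reverse, l ++ b :: h, v, ?_, ho⟩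
  rw [app_tp, List.reverse_reverse, ← tp_append]
  induction l with
  | nil => rfl
  | cons c l ih =>
    have ih' : ∀ l : List Bool, tp (l ++ [b]) (tp h (false :: v)) = tp (l ++ b :: h) (false :: v) := by
      intro l
      induction l with
      | nil => rfl
      | cons d l ih2 => rw [List.cons_append, tp, ih2]; rfl
    exact ih' (c :: l)

theorem uv_disjoint (hA : IsWorld X A) : Disjoint (UV A true) (UV A false) := by
  refine Set.disjoint_left.2 ?_
  rintro x ⟨w, y, v, e, ho⟩ ⟨w', y', v', e', ho'⟩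
  obtain ⟨h, h1, h2⟩ := uv_split e
  obtain ⟨h', h1', h2'⟩ := uv_split e'
  obtain ⟨e1, e2⟩ := tp_inj (h2.symm.trans h2')
  subst e1 e2
  have e3 := allOnes_uniq hA ho ho'
  rw [h1, h1'] at e3
  have e4 := congrArg List.length e3
  rw [List.length_append, List.length_append, List.length_cons, List.length_cons] at e4
  have e5 := (List.append_inj e3 (by omega)).2
  exact absurd (List.cons.inj e5).1 (by decide)

theorem pb_bk {g : ℕ → ℕ} (hg : PB g) : PB fun n => bk (g n) := pb_add hg (Btw.pb_comp hg _)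

theorem pb_Mn {g : ℕ → ℕ} (hg : PB g) : PB fun n => Mn (g n) :=
  pb_mul (pb_mul (pb_add hg (pb_const 1)) (pb_add hg (pb_const 3)))
    (pb_mul (pb_add hg (pb_const 1)) (pb_add (pb_bk (pb_mul (pb_const 2) hg)) (pb_const 1)))

theorem pb_tot {g : ℕ → ℕ} (hg : PB g) : PB fun n => 4 * (8 * Mn (g n)) +
    40 * (8 * Mn (g n) + 2 * g n + 2 + 2) ^ 2 + 2 :=
  pb_add (pb_add (pb_mul (pb_const 4) (pb_mul (pb_const 8) (pb_Mn hg))) (pb_mul (pb_const 40)
    (pb_pow (pb_add (pb_add (pb_add (pb_mul (pb_const 8) (pb_Mn hg)) (pb_mul (pb_const 2) hg))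
    (pb_const 2)) (pb_const 2)) 2))) (pb_const 2)

theorem Nn_mono {v : List Bool} {n : ℕ} (h : v.length ≤ n) : Nn v ≤ 8 * Mn n :=
  Nat.mul_le_mul_left 8 (mn_mono h)

theorem uv_np (hVM : SpecVM) (hA : IsWorld X A) {O : Oracle} (k : Fin 3)
    (hO : ∀ s, O (List.replicate k.val false ++ s) = A s) (b : Bool) : InNP O (UV A b) := by
  obtain ⟨c, hc⟩ := pb_tot pb_id
  refine ⟨pre b (pre true (fc false false k)), c, fun x => ?_⟩
  have h0 := hc x.length
  simp only at h0
  obtain ⟨t, ht⟩ : ∃ t, poly c x.length = t + 1 + 1 := ⟨poly c x.length - 2, by omega⟩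
  constructor
  · rintro ⟨w, y, v, e, ho⟩
    obtain ⟨h, h1, h2⟩ := uv_split e
    have hv : v.length ≤ x.length := by
      rw [h2, tp_length, List.length_cons]
      omega
    have hNn := Nn_mono hv
    have hw : w.length ≤ Nn v := by
      rw [← allOnes_length hA ho, h1, List.length_append, List.length_reverse]
      omega
    refine ⟨w, by omega, ?_⟩
    rw [ht, accepts_pre, accepts_pre]
    refine (hVM Jn k O A hO (flag2 hA) _ w).2 y v e ho t ?_
    have h3 : (Jn v + 2) ^ 2 ≤ (8 * Mn x.length + 2 * x.length + 2 + 2) ^ 2 :=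
      Nat.pow_le_pow_left (by unfold Jn; omega) 2
    omega
  · rintro ⟨w, -, h⟩
    rw [ht, accepts_pre, accepts_pre] at h
    obtain ⟨y, v, e, ho⟩ := (hVM Jn k O A hO (flag2 hA) _ w).1 t h
    exact ⟨w, y, v, e, ho⟩

theorem lt_np (hVM : SpecVM) (hA : IsWorld X A) {O : Oracle} (k : Fin 3)
    (hO : ∀ s, O (List.replicate k.val false ++ s) = A s) : InNP O (LT A) := by
  obtain ⟨c, hc⟩ := pb_tot (pb_add pb_id (pb_const 1))
  refine ⟨pre false (pre false (fc false false k)), c, fun x => ?_⟩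
  have h0 := hc x.length
  simp only at h0
  obtain ⟨t, ht⟩ : ∃ t, poly c x.length = t + 1 + 1 := ⟨poly c x.length - 2, by omega⟩
  have hNn := Nn_mono (v := false :: x) (n := x.length + 1) (by rw [List.length_cons])
  constructor
  · intro hx
    obtain ⟨y, hy⟩ := (full_iff hA).1 hx
    have hw := allOnes_length hA hy
    refine ⟨y.reverse, by rw [List.length_reverse]; omega, ?_⟩
    rw [ht, accepts_pre, accepts_pre]
    refine (hVM Jn k O A hO (flag2 hA) _ y.reverse).2 y (false :: x) ?_ hy t ?_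
    · rw [app_tp, List.reverse_reverse]
    · have h3 : (Jn (false :: x) + 2) ^ 2 ≤
          (8 * Mn (x.length + 1) + 2 * (x.length + 1) + 2 + 2) ^ 2 :=
        Nat.pow_le_pow_left (by unfold Jn; omega) 2
      rw [List.length_reverse]
      omega
  · rintro ⟨w, -, h⟩
    rw [ht, accepts_pre, accepts_pre] at h
    obtain ⟨y, v, e, ho⟩ := (hVM Jn k O A hO (flag2 hA) _ w).1 t h
    rw [app_tp] at e
    obtain ⟨-, e2⟩ := tp_inj e
    rw [← e2] at ho
    exact (full_iff hA).2 ⟨y, ho⟩

/-! ### the reduction -/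

theorem hs_eq (hA : IsWorld X A) {S : Oracle} (hS : Separator (UV A true) (UV A false) S)
    {v y : List Bool} (ho : AllOnes Jn A v y) : ∀ i ≤ Nn v,
    ∃ l, y = l ++ hs S v i ∧ (hs S v i).length = i := by
  intro i
  induction i with
  | zero => exact fun _ => ⟨y, by simp [hs], rfl⟩
  | succ i ih =>
    intro hi
    obtain ⟨l, h1, h2⟩ := ih (by omega)
    have h3 := allOnes_length hA ho
    have h4 := congrArg List.length h1
    rw [List.length_append] at h4
    have hl : l ≠ [] := by
      rintro rfl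
      rw [List.length_nil] at h4
      omega
    obtain ⟨l', b, rfl⟩ : ∃ l' b, l = l' ++ [b] :=
      ⟨l.dropLast, l.getLast hl, (List.dropLast_append_getLast hl).symm⟩
    rw [List.append_assoc] at h1
    have h5 : y = l' ++ b :: hs S v i := h1
    have h6 : tp (hs S v i) (false :: v) ∈ UV A b := uv_mk (l := l') (by rw [← h5]; exact ho)
    have h7 : S (tp (hs S v i) (false :: v)) = b := by
      cases b
      · exact hS.2 _ h6
      · exact hS.1 _ h6
    refine ⟨l', ?_, ?_⟩
    · rw [hs, h7]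
      exact h5
    · rw [hs, List.length_cons, h2]

theorem pb_nm (a : ℕ) : PB fun n => 1 + ((poly (nu a.div2).2 n + 1 + (a.div2 + 1 + n)) +
    (1 + (a + (1 + n)))) :=
  pb_add (pb_const 1) (pb_add (pb_add (pb_add (pb_poly _) (pb_const 1)) (pb_add (pb_const _)
    pb_id)) (pb_add (pb_const 1) (pb_add (pb_const a) (pb_add (pb_const 1) pb_id))))

theorem ln_eq (a : ℕ) (q : List Bool) :
    ln a q = poly (nu a.div2).2 q.length + 1 + (a.div2 + 1 + q.length) := stmt_length _ _ _

theorem nm_length (a : ℕ) (q : List Bool) : (nm a q).length =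
    1 + ((poly (nu a.div2).2 q.length + 1 + (a.div2 + 1 + q.length)) +
    (1 + (a + (1 + q.length)))) := by
  unfold nm vn
  rw [List.length_cons, List.length_append, List.length_replicate, List.length_cons,
    List.length_append, List.length_replicate, List.length_cons, ln_eq]
  ring

theorem bound_all (a : ℕ) : ∃ c, ∀ q : List Bool, 4 * Nn (nm a q) +
    40 * (ln a q + Nn (nm a q) + Jn (nm a q) + 2) ^ 2 + a + 1 ≤ poly c q.length := by
  have h1 := pb_mul (pb_const 8) (pb_Mn (pb_nm a))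
  have h2 : PB fun n => poly (nu a.div2).2 n + 1 + (a.div2 + 1 + n) :=
    pb_add (pb_add (pb_poly _) (pb_const 1)) (pb_add (pb_const _) pb_id)
  obtain ⟨c, hc⟩ := pb_add (pb_add (pb_add (pb_mul (pb_const 4) h1) (pb_mul (pb_const 40)
    (pb_pow (pb_add (pb_add (pb_add h2 h1) (pb_const 1)) (pb_const 2)) 2))) (pb_const a))
    (pb_const 1)
  refine ⟨c, fun q => ?_⟩
  have h3 := hc q.length
  simp only at h3
  rw [← nm_length, ← ln_eq] at h3
  exact h3

theorem red_P (hRED : SpecRED) (hA : IsWorld X A) {O S : Oracle} (k : Fin 3)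
    (hO : ∀ s, O (List.replicate k.val false ++ s) = A s) (hOS : ∀ s, O (true :: s) = S s)
    (hS : Separator (UV A true) (UV A false) S) {L : Set (List Bool)} {a : ℕ}
    (hL : ∀ q, q ∈ L ↔ St A a q) : InP O L := by
  obtain ⟨c, hc⟩ := bound_all a
  refine ⟨pr (fc true true k) a, c, fun q => ?_⟩
  have h0 := hc q
  obtain ⟨t, ht⟩ : ∃ t, poly c q.length = t + a + 1 := ⟨poly c q.length - (a + 1), by omega⟩
  rw [ht, accepts_pr, hL q, hA.truth a q, full_iff hA]
  rw [hRED ln Nn Jn k O A S hO hOS (flag0 hA) (flag1 hA) (flag2 hA) a q t (by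
    change 40 * (ln a q + Nn (nm a q) + Jn (nm a q) + 2) ^ 2 ≤ t
    omega)]
  constructor
  · rintro ⟨y, hy⟩
    obtain ⟨l, h1, h2⟩ := hs_eq hA hS hy (Nn (nm a q)) le_rfl
    have h3 := allOnes_length hA hy
    have h4 := congrArg List.length h1
    rw [List.length_append] at h4
    have hl : l = [] := List.length_eq_zero_iff.1 (by omega)
    rw [hl, List.nil_append] at h1
    have h5 : AllOnes Jn A (nm a q) (hs S (nm a q) (Nn (nm a q))) := by
      rw [← h1]
      exact hy
    exact h5
  · intro h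
    exact ⟨_, h⟩

theorem up_A (hPM : SpecPM) (hA : IsWorld X A) {L : Set (List Bool)} {a : ℕ}
    (hL : ∀ q, q ∈ L ↔ St A a q) : InUPk 1 A L := by
  obtain ⟨c, hc⟩ := bound_all a
  have hO : ∀ s, A (List.replicate ((0 : Fin 3).val) false ++ s) = A s := fun s => rfl
  have key : ∀ q : List Bool, ∃ t, poly c q.length = t + a + 1 ∧
      4 * Nn (nm a q) + 40 * (ln a q + Nn (nm a q) + Jn (nm a q) + 2) ^ 2 ≤ t := by
    intro q
    have h0 := hc q
    exact ⟨poly c q.length - (a + 1), by omega, by omega⟩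
  have hsound : ∀ q w : List Bool, AcceptsIn A (pr (fc true false 0) a) q w (poly c q.length) →
      AllOnes Jn A (nm a q) w.reverse := by
    intro q w h
    obtain ⟨t, ht, -⟩ := key q
    rw [ht, accepts_pr] at h
    exact (hPM ln Jn 0 A A hO (flag0 hA) (flag2 hA) a q w).1 t h
  refine ⟨pr (fc true false 0) a, c, fun q => ?_, fun q => ?_⟩
  · rw [hL q, hA.truth a q, full_iff hA]
    constructor
    · rintro ⟨y, hy⟩
      obtain ⟨t, ht, h1⟩ := key q
      have h2 := allOnes_length hA hy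
      refine ⟨y.reverse, by rw [List.length_reverse]; omega, ?_⟩
      rw [ht, accepts_pr]
      refine (hPM ln Jn 0 A A hO (flag0 hA) (flag2 hA) a q y.reverse).2
        (by rw [List.reverse_reverse]; exact hy) t ?_
      have h3 : (ln a q + Jn (vn ln a q) + 2) ^ 2 ≤
          (ln a q + Nn (nm a q) + Jn (nm a q) + 2) ^ 2 :=
        Nat.pow_le_pow_left (by unfold nm; omega) 2
      rw [List.length_reverse]
      omega
    · rintro ⟨w, -, h⟩
      exact ⟨_, hsound q w h⟩
  · have h1 : {w : List Bool | w.length ≤ poly c q.length ∧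
        AcceptsIn A (pr (fc true false 0) a) q w (poly c q.length)}.Subsingleton := by
      rintro w ⟨-, h⟩ w' ⟨-, h'⟩
      exact List.reverse_injective (allOnes_uniq hA (hsound q w h) (hsound q w' h'))
    exact_mod_cast Set.encard_le_one_iff_subsingleton.2 h1

/-- the index of a language -/
theorem index (A : Oracle) (i : Bool) {L : Set (List Bool)} (h : InNP (lw i A) L) :
    ∃ a, ∀ q, q ∈ L ↔ St A a q := by
  obtain ⟨e, he⟩ := (inNP_iff _ _).1 h
  refine ⟨Nat.bit i e, fun q => ?_⟩
  unfold St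
  rw [Nat.bodd_bit, Nat.div2_bit]
  exact he q

theorem uv_nonempty (hA : IsWorld X A) (b : Bool) : (UV A b).Nonempty := by
  obtain ⟨a, ha⟩ := index A false (hd_np A true)
  have h1 : St A a [true] := (ha [true]).1 rfl
  obtain ⟨y, hy⟩ := (full_iff hA).1 ((hA.truth a [true]).1 h1)
  obtain ⟨l, h, e⟩ := List.append_of_mem (allOnes_mem hA hy b)
  exact ⟨_, uv_mk (l := l) (h := h) (by rw [← e]; exact hy)⟩

theorem world_join (hA : IsWorld X A) : A = join X fun s => A (true :: s) := by
  funext s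
  match s with
  | [] => rw [hA.base _ (not_rowBit fun t h => by simp at h)]; rfl
  | false :: s =>
    rw [hA.base _ (not_rowBit fun t h => absurd (List.cons.inj h).1 (by decide))]
    rfl
  | true :: s => rfl

/-- Relative to every oracle between the oracle and its extension, a disjoint `NP`-pair is
`NP`-hard, but the complement of a language of `NP` is hard for nondeterministic machines. -/
theorem main (hVM : SpecVM) (hPM : SpecPM) (hRED : SpecRED) (X : Oracle) (T : ℕ → ℕ → ℕ)
    (hT : Subexponential T) : ∃ (Y : Oracle) (U V L : Set (List Bool)),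
      InNP (join X Y) L ∧ DisjointNPPair (join X Y) U V ∧
      (∀ L', InNP (ex (join X Y)) L' → InUPk 1 (join X Y) L') ∧
      (∀ S, Separator U V S → ∀ L', InNP (ex (join X Y)) L' → InP (join (join X Y) S) L') ∧
      ∀ B, InP (ex (join X Y)) {s | B s = true} → ¬ InNTime T B Lᶜ := by
  obtain ⟨A, hA, hG⟩ := exists_gen X T hT
  refine ⟨fun s => A (true :: s), UV A true, UV A false, LT A, ?_⟩
  rw [← world_join hA]
  have h0 : ∀ s, A (List.replicate ((0 : Fin 3).val) false ++ s) = A s := fun s => rfl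
  have h1' : ∀ S s, join A S (List.replicate ((1 : Fin 3).val) false ++ s) = A s :=
    fun S s => rfl
  refine ⟨lt_np hVM hA 0 h0, ?_, fun L hL => ?_, fun S hS L hL => ?_, ?_⟩
  · exact ⟨uv_nonempty hA true, uv_nonempty hA false, uv_np hVM hA 0 h0 true,
      uv_np hVM hA 0 h0 false, uv_disjoint hA⟩
  · obtain ⟨a, ha⟩ := index A true hL
    exact up_A hPM hA ha
  · obtain ⟨a, ha⟩ := index A true hL
    exact red_P hRED hA 1 (h1' S) (fun s => rfl) hS ha
  · rintro B ⟨N, d, hN⟩ ⟨M, c, h⟩
    have hB : B = dk N d A := by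
      classical
      funext s
      rw [Bool.eq_iff_iff]
      unfold dk
      rw [decide_eq_true_iff]
      exact hN s
    subst hB
    obtain ⟨x, hx⟩ := hG N d M c
    exact hx (h x)

end ESY.Alg6
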