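import Pool.Agent.Lib.MP_80aaf5_lc.Alg3.Query
import Pool.Agent.Lib.MP_80aaf5_lc.Alg4.Lin
import Pool.Agent.Lib.MP_80aaf5_lc.AlgGen.Ext

/-!
# The values of an additive extension as sums
-/

set_option linter.unusedSectionVars false

namespace ESY.Alg6

open ESY ESY.Few
open ESY.Alg3 (Ls mem_Ls card_Ls Qy)
open ESY.Alg4 (Pq mem_Pq)
open ESY.Alg.Gen (IsAdd exo bd bd_mono poly_le_bd le_bd exo_congr)

/-- the additive extension -/
class AE : Type where
  E : Oracle → Oracle
  k : ℕ
  hE : IsAdd k E

variable [AE]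

/-- the bound -/
def bk (n : ℕ) : ℕ := bd AE.k n

theorem bk_mono {m n : ℕ} (h : m ≤ n) : bk m ≤ bk n := bd_mono h

theorem le_bk (n : ℕ) : n ≤ bk n := le_bd _ _

/-- the extended oracle -/
def ex (O : Oracle) : Oracle := exo AE.E O

theorem ex_congr {A A' : Oracle} {s : List Bool} (h : Agree (bk s.length) A A') :
    ex A s = ex A' s := exo_congr AE.hE h

/-- the strings of length at most `m` -/
noncomputable def Lb (m : ℕ) : Finset (List Bool) := (List.finite_length_le Bool m).toFinset

theorem mem_Lb {m : ℕ} {s : List Bool} : s ∈ Lb m ↔ s.length ≤ m := by simp [Lb]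

/-- the oracle `O` or the extended oracle over `O` -/
def lw (i : Bool) (O : Oracle) : Oracle := bif i then ex O else O

theorem lw_congr (i : Bool) {A A' : Oracle} {s : List Bool} (h : Agree (bk s.length) A A') :
    lw i A s = lw i A' s := by
  cases i
  · exact h s (le_bk _)
  · exact ex_congr h

/-- value of a query -/
def qv (p : Qy) (A : Oracle) : Bool := lw p.1 A p.2

/-- reach of a query -/
def ql (p : Qy) : ℕ := bk p.2.length

/-- weight of a query -/
def wt (p : Qy) : ℕ := bk p.2.length + 1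

theorem rep_one (s : List Bool) (m : ℕ) (hm : s.length ≤ m) : ∃ (cf : List Bool → ZMod 2)
    (d : ZMod 2 → Bool), ∀ A : Oracle, A s = d (∑ t ∈ Lb m, if A t = true then cf t else 0) := by
  refine ⟨fun t => if t = s then 1 else 0, fun z => decide (z = 1), fun A => ?_⟩
  have h1 : ∑ t ∈ Lb m, (if A t = true then (if t = s then (1 : ZMod 2) else 0)
      else 0) = if A s = true then 1 else 0 := by
    rw [Finset.sum_eq_single s]
    · rw [if_pos rfl]
    · intro t _ ht
      rw [if_neg ht, ite_self]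
    · intro h
      exact absurd (mem_Lb.2 hm) h
  rw [h1]
  cases A s <;> rfl

theorem rep (p : Qy) : ∃ (G : Type) (_ : AddCommGroup G) (_ : Fintype G) (cf : List Bool → G)
    (d : G → Bool), Fintype.card G ≤ 2 ^ wt p ∧
      ∀ A, qv p A = d (∑ s ∈ Lb (ql p), if A s = true then cf s else 0) := by
  have h2 : ∀ p : Qy, Fintype.card (ZMod 2) ≤ 2 ^ wt p := fun p => by
    rw [ZMod.card]
    calc 2 = 2 ^ 1 := rfl
      _ ≤ 2 ^ wt p := Nat.pow_le_pow_right (by norm_num) (Nat.le_add_left _ _)
  obtain ⟨i, s⟩ := p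
  match i, s with
  | false, s =>
    obtain ⟨cf, d, h⟩ := rep_one s (ql (false, s)) (le_bk _)
    exact ⟨ZMod 2, inferInstance, inferInstance, cf, d, h2 _, h⟩
  | true, [] => exact ⟨ZMod 2, inferInstance, inferInstance, fun _ => 0, fun _ => false, h2 _,
      fun _ => rfl⟩
  | true, false :: s =>
    obtain ⟨cf, d, h⟩ := rep_one s (ql (true, false :: s)) ((Nat.le_succ _).trans (le_bk _))
    exact ⟨ZMod 2, inferInstance, inferInstance, cf, d, h2 _, h⟩
  | true, true :: s =>
    obtain ⟨G, h3, h4, g, F, h5, h6⟩ := AE.hE s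
    have hle : poly AE.k s.length ≤ ql (true, true :: s) :=
      (poly_le_bd _ _).trans (bd_mono (Nat.le_succ _))
    refine ⟨G, h3, h4, fun r => if r.length ≤ poly AE.k s.length then g r else 0, F,
      h5.trans (Nat.pow_le_pow_right (by norm_num) (hle.trans (Nat.le_succ _))), fun A => ?_⟩
    change AE.E A s = _
    rw [h6]
    congr 1
    have h7 : Lb (poly AE.k s.length) ⊆ Lb (ql (true, true :: s)) := fun r hr =>
      mem_Lb.2 ((mem_Lb.1 hr).trans hle)
    rw [← Finset.sum_subset h7]
    · refine Finset.sum_congr rfl fun r hr => ?_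
      simp only
      rw [if_pos (mem_Lb.1 hr)]
      cases A r <;> simp
    · intro r _ hr
      rw [mem_Lb] at hr
      simp only
      rw [if_neg hr, ite_self]

/-- the group -/
def Gp (p : Qy) : Type := (rep p).choose

noncomputable instance (p : Qy) : AddCommGroup (Gp p) := (rep p).choose_spec.choose

noncomputable instance (p : Qy) : Fintype (Gp p) := (rep p).choose_spec.choose_spec.choose

/-- coefficients -/
noncomputable def cf (p : Qy) : List Bool → Gp p :=
  (rep p).choose_spec.choose_spec.choose_spec.choose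

/-- decoding -/
noncomputable def dc (p : Qy) : Gp p → Bool :=
  (rep p).choose_spec.choose_spec.choose_spec.choose_spec.choose

theorem gp_le (p : Qy) : Fintype.card (Gp p) ≤ 2 ^ wt p :=
  (rep p).choose_spec.choose_spec.choose_spec.choose_spec.choose_spec.1

theorem qv_eq (p : Qy) (A : Oracle) :
    qv p A = dc p (∑ s ∈ Lb (ql p), if A s = true then cf p s else 0) :=
  (rep p).choose_spec.choose_spec.choose_spec.choose_spec.choose_spec.2 A

theorem qv_congr {p : Qy} {A A' : Oracle} (h : Agree (ql p) A A') : qv p A = qv p A' :=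
  lw_congr _ h

/-! ### the sum of the weights -/

theorem len_lt_wt (p : Qy) : p.2.length + 1 ≤ wt p := Nat.succ_le_succ (le_bk _)

theorem sum_Pq (w : ℕ) : ∑ p ∈ Pq w, (1 / 16 : ℝ) ^ wt p ≤ 1 / 7 := by
  refine le_trans (Finset.sum_le_sum fun p _ => ?_) (Alg4.sum_Pq w)
  exact pow_le_pow_of_le_one (by norm_num) (by norm_num) (len_lt_wt p)

theorem sub_Pq {Q : Finset Qy} {w : ℕ} (h : ∑ p ∈ Q, wt p ≤ w) : Q ⊆ Pq w := by
  intro p hp
  rw [mem_Pq]
  have h1 : wt p ≤ ∑ p ∈ Q, wt p := Finset.single_le_sum (fun _ _ => Nat.zero_le _) hp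
  have h2 := len_lt_wt p
  omega

end ESY.Alg6
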