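import Pool.Agent.Lib.MP_80aaf5_lc.Alg6.Final
import Pool.Agent.Lib.MP_80aaf5_lc.Alg3.MchProof

/-!
# An NP-hard disjoint NP-pair relative to additive extensions, with NP different from coNP
-/

namespace ESY.Alg6

open ESY Set

/-- Relative to every oracle between `A` and its additive extension, the same disjoint `NP`-pair
is `NP`-hard and `NP = UP`, but the complement of the same language of `NP` is hard for
nondeterministic machines. -/
theorem final (E : Oracle → Oracle) (hE : AdditiveExt E) (X : Oracle) (T : ℕ → ℕ → ℕ)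
    (hT : Subexponential T) : ∃ (Y : Oracle) (U V L : Set (List Bool)),
      (∀ S, Separator U V S → ∀ L', InNP (join (join X Y) (E (join X Y))) L' →
        InP (join (join X Y) S) L') ∧
      (∀ L', InNP (join (join X Y) (E (join X Y))) L' → InUPk 1 (join X Y) L') ∧
      ∀ B : Oracle, InP B {s | join X Y s = true} →
        InP (join (join X Y) (E (join X Y))) {s | B s = true} →
        DisjointNPPair B U V ∧ NPHard B U V ∧ (∀ L', InNP B L' → InUPk 1 B L') ∧
          InNP B L ∧ ¬ InNTime T B Lᶜ := by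
  obtain ⟨k, hk⟩ := hE
  let I : AE := ⟨E, k, hk⟩
  obtain ⟨Y, U, V, L, hL, hUV, hUP, hred, hB⟩ :=
    main Alg3.specVM Alg3.specPM Alg3.specRED X T hT
  refine ⟨Y, U, V, L, hred, hUP, fun B hAB hBE => ⟨?_, fun S hS L' hL' => ?_, fun L' hL' => ?_,
    Btw.btw_np hAB hL, hB B hBE⟩⟩
  · exact ⟨hUV.1, hUV.2.1, Btw.btw_np hAB hUV.2.2.1, Btw.btw_np hAB hUV.2.2.2.1,
      hUV.2.2.2.2⟩
  · exact Btw.btw_join S hAB (hred S hS L' (Btw.btw_np hBE hL'))
  · exact Btw.btw_up hAB (hUP L' (Btw.btw_np hBE hL'))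

end ESY.Alg6
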