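import Pool.Agent.Lib.MP_80aaf5_lc.Alg6.Lin
import Pool.Agent.Lib.MP_80aaf5_lc.Alg4.Rows

/-!
# Blocks, their configurations and levels
-/

set_option linter.unusedSectionVars false

namespace ESY.Alg6

open ESY ESY.Conv ESY.Few
open ESY.Alg2 (tp tp_inj tp_length ln)
open ESY.Alg3 (Ls mem_Ls card_Ls Qy rs rs_length rs_inj un un_length nm)
open ESY.Alg4 (O0 O1 mem_O0 mem_O1 kp Pq exists_c0 exists_c1 Jn)

variable [AE]

/-- bound for the weight of a certificate -/
def Cn (n : ℕ) : ℕ := (n + 1) * (bk (2 * n) + 1)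

/-- parameter -/
def Mn (n : ℕ) : ℕ := (n + 1) * (n + 3) * Cn n

/-- length of the row names -/
def Nn (v : List Bool) : ℕ := 8 * Mn v.length

/-- level of the blocks of length `n` -/
def lvn (n : ℕ) : ℕ := 2 + 16 * Mn n + n + 5

/-- level of a block: length of its bit names -/
def lvl (v : List Bool) : ℕ := lvn v.length

theorem bk_pos (n : ℕ) : 1 ≤ bk n := by
  unfold bk Alg.Gen.bd poly
  rcases Nat.eq_zero_or_pos AE.k with h | h
  · rw [h]
    simp
  · omega

theorem cn_mono {n n' : ℕ} (h : n ≤ n') : Cn n ≤ Cn n' :=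
  Nat.mul_le_mul (by omega) (Nat.succ_le_succ (bk_mono (by omega)))

theorem mn_mono {n n' : ℕ} (h : n ≤ n') : Mn n ≤ Mn n' :=
  Nat.mul_le_mul (Nat.mul_le_mul (by omega) (by omega)) (cn_mono h)

theorem cn_ge (n : ℕ) : 2 ≤ Cn n := by
  unfold Cn
  have h1 := bk_pos (2 * n)
  nlinarith

theorem mn_ge (n : ℕ) : 4 * (n + 1) ≤ Mn n := by
  unfold Mn
  have h1 := cn_ge n
  have h2 : (n + 1) * (n + 3) * 2 ≤ (n + 1) * (n + 3) * Cn n := Nat.mul_le_mul_left _ h1
  nlinarith

theorem bk_lt_mn (n : ℕ) : bk (2 * n) < Mn n := by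
  unfold Mn Cn
  have h1 : 1 ≤ (n + 1) * (n + 3) := Nat.one_le_iff_ne_zero.2 (by positivity)
  have h2 : bk (2 * n) + 1 ≤ (n + 1) * (bk (2 * n) + 1) := Nat.le_mul_of_pos_left _ (by omega)
  have h3 : (n + 1) * (bk (2 * n) + 1) ≤ (n + 1) * (n + 3) * ((n + 1) * (bk (2 * n) + 1)) :=
    Nat.le_mul_of_pos_left _ h1
  omega

theorem lvn_strict {n n' : ℕ} (h : n < n') : lvn n < lvn n' := by
  have := mn_mono h.le
  unfold lvn
  omega

theorem lvn_inj {n n' : ℕ} (h : lvn n = lvn n') : n = n' := by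
  rcases lt_trichotomy n n' with h1 | h1 | h1
  · exact absurd h (lvn_strict h1).ne
  · exact h1
  · exact absurd h.symm (lvn_strict h1).ne

theorem lvn_mono {n n' : ℕ} (h : n ≤ n') : lvn n ≤ lvn n' := by
  rcases Nat.eq_or_lt_of_le h with rfl | h
  · exact le_rfl
  · exact (lvn_strict h).le

theorem lvl_inj {v v' : List Bool} (h : lvl v = lvl v') : v.length = v'.length := lvn_inj h

theorem lvn_le {n n' : ℕ} (h : lvn n ≤ lvn n') : n ≤ n' := by
  by_contra hcon
  exact absurd (lvn_strict (not_le.1 hcon)) (not_lt.2 h)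

theorem le_lvn (n : ℕ) : n ≤ lvn n := by
  unfold lvn
  omega

theorem lvl_ge (v : List Bool) : bk (2 * v.length) < lvl v := by
  have := bk_lt_mn v.length
  unfold lvl lvn
  omega

/-! ### the rows -/

/-- the names of the rows of the blocks of length `n` -/
def Sn (n : ℕ) : Finset (List Bool) :=
  (Ls (8 * Mn n)).filter fun y => true ∈ y ∧ false ∈ y

theorem mem_Sn {n : ℕ} {y : List Bool} :
    y ∈ Sn n ↔ y.length = 8 * Mn n ∧ true ∈ y ∧ false ∈ y := by
  rw [Sn, Finset.mem_filter, mem_Ls]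

theorem card_Sn_le (n : ℕ) : (Sn n).card ≤ 2 ^ (8 * Mn n) := by
  rw [← card_Ls]
  exact Finset.card_le_card (Finset.filter_subset _ _)

theorem card_Sn_ge (n : ℕ) : 2 ^ (8 * Mn n) ≤ (Sn n).card + 2 := by
  classical
  have hrep : ∀ (b : Bool) (y : List Bool), (!b) ∉ y → y = List.replicate y.length b := by
    intro b y hy
    refine List.eq_replicate_iff.2 ⟨rfl, fun c hc => ?_⟩
    by_contra hcb
    have : c = !b := by
      cases b <;> cases c <;> simp_all
    exact hy (this ▸ hc)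
  have h1 : Ls (8 * Mn n) ⊆ Sn n ∪ {List.replicate (8 * Mn n) false,
      List.replicate (8 * Mn n) true} := by
    intro y hy
    have hyl := mem_Ls.1 hy
    rw [Finset.mem_union, mem_Sn, Finset.mem_insert, Finset.mem_singleton]
    by_cases ht : true ∈ y
    · by_cases hf : false ∈ y
      · exact Or.inl ⟨hyl, ht, hf⟩
      · right; right
        have h2 := hrep true y hf
        rwa [hyl] at h2
    · right; left
      have h2 := hrep false y ht
      rwa [hyl] at h2
  have h2 := (Finset.card_le_card h1).trans (Finset.card_union_le _ _)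
  rw [card_Ls] at h2
  have h3 : ({List.replicate (8 * Mn n) false, List.replicate (8 * Mn n) true} :
      Finset (List Bool)).card ≤ 2 := Finset.card_le_two
  omega

/-- a configuration -/
abbrev Cfg : Type := Finset (List Bool) × Finset (List Bool)

/-- the configuration of a block -/
def cfg (A : Oracle) (v : List Bool) : Cfg :=
  ((Sn v.length).filter fun y => A (rs Jn v y 0) = true,
    (Sn v.length).filter fun y => A (rs Jn v y 1) = true)

/-- the bit names of rows -/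
def RowBit (s : List Bool) : Prop :=
  ∃ v, ∃ y ∈ Sn v.length, ∃ j ≤ 1, s = rs Jn v y j

theorem rs_len {v y : List Bool} (hy : y ∈ Sn v.length) {j : ℕ} (hj : j ≤ 1) :
    (rs Jn v y j).length = lvl v := by
  rw [rs_length Jn v y hj, (mem_Sn.1 hy).1]
  unfold lvl lvn Jn
  ring

theorem cfg_congr {A A' : Oracle} {v : List Bool}
    (h : ∀ s : List Bool, s.length = lvl v → A s = A' s) : cfg A v = cfg A' v := by
  unfold cfg
  congr 1
  · refine Finset.filter_congr fun y hy => ?_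
    rw [h _ (rs_len hy (Nat.zero_le _))]
  · refine Finset.filter_congr fun y hy => ?_
    rw [h _ (rs_len hy le_rfl)]

/-! ### values -/

/-- coefficients of the first bits -/
noncomputable def ca (p : Qy) (v y : List Bool) : Gp p := cf p (rs Jn v y 0)

/-- coefficients of the second bits -/
noncomputable def cb (p : Qy) (v y : List Bool) : Gp p := cf p (rs Jn v y 1)

/-- the contribution of a configuration of the block `v` to the query `p` -/
noncomputable def ct (p : Qy) (v : List Bool) (c : Cfg) : Gp p := kp (ca p v) (cb p v) c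

/-- the blocks of level at most `m` -/
noncomputable def Vb (m : ℕ) : Finset (List Bool) := (Lb m).filter fun v => lvl v ≤ m

theorem mem_Vb {m : ℕ} {v : List Bool} : v ∈ Vb m ↔ lvl v ≤ m := by
  rw [Vb, Finset.mem_filter, mem_Lb]
  exact ⟨fun h => h.2, fun h => ⟨(le_lvn _).trans h, h⟩⟩

theorem rowBit_sum (A : Oracle) (p : Qy) (m : ℕ) [DecidablePred RowBit] :
    ∑ s ∈ (Lb m).filter RowBit, (if A s = true then cf p s else 0) =
      ∑ v ∈ Vb m, ct p v (cfg A v) := by
  classical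
  have h1 : (Lb m).filter RowBit = ((Vb m).sigma fun v => Sn v.length ×ˢ Finset.range 2).image
      fun t => rs Jn t.1 t.2.1 t.2.2 := by
    ext s
    rw [Finset.mem_filter, mem_Lb, Finset.mem_image]
    constructor
    · rintro ⟨hs, v, y, hy, j, hj, rfl⟩
      rw [rs_len hy hj] at hs
      refine ⟨⟨v, (y, j)⟩, ?_, rfl⟩
      rw [Finset.mem_sigma, Finset.mem_product, Finset.mem_range, mem_Vb]
      exact ⟨hs, hy, Nat.lt_succ_of_le hj⟩
    · rintro ⟨⟨v, y, j⟩, h, rfl⟩
      rw [Finset.mem_sigma, Finset.mem_product, Finset.mem_range, mem_Vb] at h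
      obtain ⟨hn, hy, hj⟩ := h
      simp only at hn hy hj ⊢
      refine ⟨?_, v, y, hy, j, Nat.le_of_lt_succ hj, rfl⟩
      rw [rs_len hy (Nat.le_of_lt_succ hj)]
      exact hn
  rw [h1, Finset.sum_image, Finset.sum_sigma]
  · refine Finset.sum_congr rfl fun v _ => ?_
    rw [Finset.sum_product]
    unfold ct kp cfg ca cb
    simp only
    rw [Finset.sum_filter, Finset.sum_filter, ← Finset.sum_add_distrib]
    refine Finset.sum_congr rfl fun y _ => ?_
    rw [Finset.sum_range_succ, Finset.sum_range_one]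
  · rintro ⟨v, y, j⟩ h ⟨v', y', j'⟩ h' e
    rw [Finset.mem_coe, Finset.mem_sigma, Finset.mem_product, Finset.mem_range] at h h'
    simp only at h h' e
    obtain ⟨e1, e2, e3⟩ := rs_inj (J := Jn) (Nat.le_of_lt_succ h.2.2) (Nat.le_of_lt_succ h'.2.2) e
    rw [e1, e2, e3]

/-- a query does not change when the contributions of the blocks do not change -/
theorem qv_same {p : Qy} {A A' : Oracle}
    (h1 : ∀ s : List Bool, s.length ≤ ql p → ¬ RowBit s → A s = A' s)
    (h2 : ∀ v, lvl v ≤ ql p → ct p v (cfg A v) = ct p v (cfg A' v)) : qv p A = qv p A' := by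
  classical
  rw [qv_eq, qv_eq]
  congr 1
  rw [← Finset.sum_filter_add_sum_filter_not (Lb (ql p)) RowBit,
    ← Finset.sum_filter_add_sum_filter_not (Lb (ql p)) RowBit fun s =>
      if A' s = true then cf p s else 0]
  congr 1
  · rw [rowBit_sum, rowBit_sum]
    exact Finset.sum_congr rfl fun v hv => h2 v (mem_Vb.1 hv)
  · refine Finset.sum_congr rfl fun s hs => ?_
    obtain ⟨h3, h4⟩ := Finset.mem_filter.1 hs
    rw [h1 s (mem_Lb.1 h3) h4]

/-! ### canonical configurations -/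

theorem size_bound (n : ℕ) : 12 * (2 ^ n * 16 ^ Mn n * (2 * (2 ^ Mn n + 8 * Mn n) + 1)) ≤
    (Sn n).card ∧ 12 * 2 ^ Mn n + 4 ≤ (Sn n).card := by
  have h0 := mn_ge n
  have h1 := card_Sn_ge n
  have h2 : Mn n < 2 ^ Mn n := Nat.lt_two_pow_self
  have h3 : 2 ^ n ≤ 2 ^ Mn n := Nat.pow_le_pow_right (by norm_num) (by omega)
  set M := Mn n with hM
  set w := 2 ^ M with hw
  have e1 : 16 ^ M = w ^ 4 := by
    rw [hw, ← pow_mul, mul_comm, pow_mul]
    norm_num
  have e2 : 2 ^ (8 * M) = w ^ 8 := by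
    rw [hw, ← pow_mul, mul_comm]
  have e3 : 16 ≤ w := by
    have : 2 ^ 4 ≤ 2 ^ M := Nat.pow_le_pow_right (by norm_num) (by omega)
    omega
  have e4 : 256 ≤ w ^ 2 := by nlinarith
  have e5 : 256 * w ^ 6 ≤ w ^ 8 := by
    calc 256 * w ^ 6 ≤ w ^ 2 * w ^ 6 := Nat.mul_le_mul_right _ e4
      _ = w ^ 8 := by ring
  have e6 : 1 ≤ w ^ 5 := Nat.one_le_pow _ _ (by omega)
  have e7 : 16 * w ^ 5 ≤ w ^ 6 := by
    calc 16 * w ^ 5 ≤ w * w ^ 5 := Nat.mul_le_mul_right _ e3
      _ = w ^ 6 := by ring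
  rw [e2] at h1
  constructor
  · rw [e1]
    have h4 : 2 ^ n * w ^ 4 * (2 * (w + 8 * M) + 1) ≤ w * w ^ 4 * (19 * w) := by
      refine Nat.mul_le_mul (Nat.mul_le_mul_right _ h3) ?_
      omega
    have h5 : w * w ^ 4 * (19 * w) = 19 * w ^ 6 := by ring
    omega
  · have e8 : w ≤ w ^ 5 := Nat.le_self_pow (by norm_num) _
    omega

/-- canonical configurations for the blocks of length `n` -/
theorem exists_canon (n : ℕ) : ∃ c0 c1 : List Bool → Cfg,
    (∀ v : List Bool, v.length = n → c0 v ∈ O0 (Sn n) ∧ c1 v ∈ O1 (Sn n)) ∧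
    ∀ Q : Finset Qy, ∑ p ∈ Q, wt p ≤ 2 ^ Mn n →
      (∀ v : List Bool, v.length = n → ∃ f ∈ O1 (Sn n), ∀ p ∈ Q, ct p v f = ct p v (c0 v)) ∧
      ∀ D : Finset (List Bool), (∀ v ∈ D, v.length = n ∧
        ¬ ∃ f ∈ O0 (Sn n), ∀ p ∈ Q, ct p v f = ct p v (c1 v)) →
        Mn n * D.card ≤ ∑ p ∈ Q, wt p := by
  classical
  obtain ⟨hb1, hb2⟩ := size_bound n
  have hΓ : ∀ p ∈ Pq (2 ^ Mn n), Fintype.card (Gp p) ≤ 2 ^ wt p := fun p _ => gp_le p
  have h0 : ∀ v : List Bool, ∃ c ∈ O0 (Sn n), ∀ Q ⊆ Pq (2 ^ Mn n), ∑ p ∈ Q, wt p ≤ 2 ^ Mn n →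
      ∃ f ∈ O1 (Sn n), ∀ p ∈ Q, kp (ca p v) (cb p v) f = kp (ca p v) (cb p v) c := fun v =>
    exists_c0 (Γ := Gp) (sum_Pq _) hΓ (Sn n) (fun p => ca p v)
      (fun p => cb p v) hb2
  choose c0 h01 h02 using h0
  obtain ⟨c1, h11, h12⟩ := exists_c1 (Γ := Gp) (V := List.Vector Bool n)
    (sum_Pq _) hΓ (Sn n) (fun p v => ca p v.1) (fun p v => cb p v.1) (M := Mn n)
    (N := 8 * Mn n) (w := 2 ^ Mn n) (card_Sn_le n) (by omega) (by
      rw [card_vector, Fintype.card_bool]
      exact hb1)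
  obtain ⟨c1', hc1⟩ : ∃ c1' : List Bool → Cfg, ∀ v : List.Vector Bool n, c1' v.1 = c1 v :=
    ⟨fun v => if h : v.length = n then c1 ⟨v, h⟩ else (∅, ∅), fun v => dif_pos v.2⟩
  refine ⟨c0, c1', fun v hv => ⟨h01 v, ?_⟩,
    fun Q hQ => ⟨fun v _ => h02 v Q (sub_Pq hQ) hQ, fun D hD => ?_⟩⟩
  · rw [hc1 ⟨v, hv⟩]
    exact h11 _
  · have h2 := h12 Q (sub_Pq hQ) hQ (Finset.univ.filter fun v : List.Vector Bool n => v.1 ∈ D) (by
      intro v hv
      have h3 := (hD v.1 (Finset.mem_filter.1 hv).2).2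
      rw [hc1 v] at h3
      exact h3)
    have h4 : (Finset.univ.filter fun v : List.Vector Bool n => v.1 ∈ D).card = D.card := by
      refine Finset.card_bij (fun v _ => v.1) (fun v hv => (Finset.mem_filter.1 hv).2)
        (fun v _ v' _ e => Subtype.ext e) fun v hv => ?_
      exact ⟨⟨v, (hD v hv).1⟩, Finset.mem_filter.2 ⟨Finset.mem_univ _, hv⟩, rfl⟩
    rwa [h4] at h2

/-- the canonical disjoint configuration -/
noncomputable def c0 (v : List Bool) : Cfg := (exists_canon v.length).choose v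

/-- the canonical configuration with a full row -/
noncomputable def c1 (v : List Bool) : Cfg := (exists_canon v.length).choose_spec.choose v

theorem c0_mem (v : List Bool) : c0 v ∈ O0 (Sn v.length) :=
  ((exists_canon v.length).choose_spec.choose_spec.1 v rfl).1

theorem c1_mem (v : List Bool) : c1 v ∈ O1 (Sn v.length) :=
  ((exists_canon v.length).choose_spec.choose_spec.1 v rfl).2

theorem c0_amb (v : List Bool) {Q : Finset Qy} (hQ : ∑ p ∈ Q, wt p ≤ 2 ^ Mn v.length) :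
    ∃ f ∈ O1 (Sn v.length), ∀ p ∈ Q, ct p v f = ct p v (c0 v) :=
  ((exists_canon v.length).choose_spec.choose_spec.2 Q hQ).1 v rfl

theorem c1_amb (n : ℕ) {Q : Finset Qy} (hQ : ∑ p ∈ Q, wt p ≤ 2 ^ Mn n)
    (D : Finset (List Bool)) (hD : ∀ v ∈ D, v.length = n ∧
      ¬ ∃ f ∈ O0 (Sn v.length), ∀ p ∈ Q, ct p v f = ct p v (c1 v)) :
    Mn n * D.card ≤ ∑ p ∈ Q, wt p := by
  refine ((exists_canon n).choose_spec.choose_spec.2 Q hQ).2 D fun v hv => ?_
  obtain ⟨h1, h2⟩ := hD v hv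
  subst h1
  exact ⟨rfl, h2⟩

end ESY.Alg6
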