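import Pool.Agent.Lib.MP_80aaf5_lc.Alg6.Close
import Pool.Agent.Lib.MP_b9add9_lc.Alg2.Hard
import Pool.Agent.Lib.MP_b9add9_lc.Uni.Params

/-!
# The worlds
-/

set_option linter.unusedSectionVars false

namespace ESY.Alg6

open ESY ESY.Conv ESY.Few Set Topology Filter
open ESY.Uni (baire_closure)
open ESY.Alg2 (tp tp_inj tp_length ln exists_fix open_agree)
open ESY.Alg3 (Ls mem_Ls card_Ls Qy rs rs_length rs_inj nm nm_inj ln_le_nm)
open ESY.Alg4 (O0 O1 mem_O0 mem_O1 Jn)

variable [AE]

/-! ### building an oracle -/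

/-- a bit name of a row of a block of length at least `n₀` -/
def RowBitF (n₀ : ℕ) (s : List Bool) : Prop :=
  ∃ v : List Bool, n₀ ≤ v.length ∧ ∃ y ∈ Sn v.length, ∃ j ≤ 1, s = rs Jn v y j

theorem RowBitF.rowBit {n₀ : ℕ} {s : List Bool} (h : RowBitF n₀ s) : RowBit s := by
  obtain ⟨v, -, y, hy, j, hj, e⟩ := h
  exact ⟨v, y, hy, j, hj, e⟩

theorem RowBitF.length {n₀ : ℕ} {s : List Bool} (h : RowBitF n₀ s) : lvn n₀ ≤ s.length := by
  obtain ⟨v, hv, y, hy, j, hj, rfl⟩ := h
  rw [rs_len hy hj, lvl]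
  rcases Nat.eq_or_lt_of_le hv with h | h
  · rw [h]
  · exact (lvn_strict h).le

/-- **Building an oracle.** -/
theorem build (A₁ : Oracle) (n₀ : ℕ) (c : Oracle → List Bool → Cfg)
    (hc : ∀ A v, (c A v).1 ⊆ Sn v.length ∧ (c A v).2 ⊆ Sn v.length)
    (hc' : ∀ A A' v, (∀ s : List Bool, s.length < lvl v → A s = A' s) → c A v = c A' v) :
    ∃ A, (∀ s, ¬ RowBitF n₀ s → A s = A₁ s) ∧ ∀ v, n₀ ≤ v.length → cfg A v = c A v := by
  classical
  obtain ⟨A, hA⟩ := exists_fix (α := Bool) (fun A s => if RowBitF n₀ s then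
    decide (∃ v y, (s = rs Jn v y 0 ∧ y ∈ (c A v).1) ∨ (s = rs Jn v y 1 ∧ y ∈ (c A v).2))
    else A₁ s) (by
      intro K₁ K₂ s h
      by_cases hs : RowBitF n₀ s
      · rw [if_pos hs, if_pos hs]
        refine decide_eq_decide.2 (exists_congr fun v => exists_congr fun y => ?_)
        have key : ∀ j ≤ 1, y ∈ Sn v.length → s = rs Jn v y j → c K₁ v = c K₂ v := by
          intro j hj hy e
          refine hc' K₁ K₂ v fun s' hs' => h s' ?_
          rw [e, rs_len hy hj]
          exact hs'
        refine or_congr ?_ ?_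
        · constructor
          · rintro ⟨e, hy⟩
            exact ⟨e, by rw [← key 0 (Nat.zero_le _) ((hc K₁ v).1 hy) e]; exact hy⟩
          · rintro ⟨e, hy⟩
            exact ⟨e, by rw [key 0 (Nat.zero_le _) ((hc K₂ v).1 hy) e]; exact hy⟩
        · constructor
          · rintro ⟨e, hy⟩
            exact ⟨e, by rw [← key 1 le_rfl ((hc K₁ v).2 hy) e]; exact hy⟩
          · rintro ⟨e, hy⟩
            exact ⟨e, by rw [key 1 le_rfl ((hc K₂ v).2 hy) e]; exact hy⟩
      · rw [if_neg hs, if_neg hs])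
  refine ⟨A, fun s hs => ?_, fun v hv => ?_⟩
  · rw [hA s, if_neg hs]
  · refine Prod.ext ?_ ?_
    · ext y
      unfold cfg
      rw [Finset.mem_filter]
      constructor
      · rintro ⟨hy, h⟩
        rw [hA, if_pos ⟨v, hv, y, hy, 0, Nat.zero_le _, rfl⟩, decide_eq_true_eq] at h
        obtain ⟨v', y', ⟨e, h⟩ | ⟨e, h⟩⟩ := h
        · obtain ⟨e1, e2, -⟩ := rs_inj (J := Jn) (Nat.zero_le _) (Nat.zero_le _) e
          rw [e1, e2]
          exact h
        · obtain ⟨-, -, e3⟩ := rs_inj (J := Jn) (j := 0) (j' := 1) (Nat.zero_le _) (le_refl 1) e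
          exact absurd e3 (by decide)
      · intro h
        have hy := (hc A v).1 h
        refine ⟨hy, ?_⟩
        rw [hA, if_pos ⟨v, hv, y, hy, 0, Nat.zero_le _, rfl⟩, decide_eq_true_eq]
        exact ⟨v, y, Or.inl ⟨rfl, h⟩⟩
    · ext y
      unfold cfg
      rw [Finset.mem_filter]
      constructor
      · rintro ⟨hy, h⟩
        rw [hA, if_pos ⟨v, hv, y, hy, 1, le_rfl, rfl⟩, decide_eq_true_eq] at h
        obtain ⟨v', y', ⟨e, h⟩ | ⟨e, h⟩⟩ := h
        · obtain ⟨-, -, e3⟩ := rs_inj (J := Jn) (j := 1) (j' := 0) (le_refl 1) (Nat.zero_le _) e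
          exact absurd e3 (by decide)
        · obtain ⟨e1, e2, -⟩ := rs_inj (J := Jn) (j := 1) (j' := 1) (le_refl 1) (le_refl 1) e
          rw [e1, e2]
          exact h
      · intro h
        have hy := (hc A v).2 h
        refine ⟨hy, ?_⟩
        rw [hA, if_pos ⟨v, hv, y, hy, 1, le_rfl, rfl⟩, decide_eq_true_eq]
        exact ⟨v, y, Or.inr ⟨rfl, h⟩⟩

/-! ### worlds -/

open Classical in
/-- the flags -/
noncomputable def flg (s : List Bool) : Bool :=
  match s with
  | true :: false :: e => decide (∃ y v : List Bool, e = tp y (false :: v) ∧ Nn v ≤ y.length)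
  | false :: true :: e => decide (∃ α y v : List Bool, e = tp α (false :: tp y (false :: v)) ∧
      Jn v ≤ α.length)
  | false :: false :: e => decide (∃ (i a : ℕ) (q : List Bool), e = List.replicate i true ++
      false :: (List.replicate a true ++ false :: q) ∧ ln a q ≤ i)
  | _ => false

/-- the fixed part -/
noncomputable def Bs (X : Oracle) : Oracle := join X flg

/-- the worlds -/
structure IsWorld (X A : Oracle) : Prop where
  base : ∀ s, ¬ RowBit s → A s = Bs X s
  uniq : ∀ v, Emp A v ∨ Full A v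
  truth : ∀ a q, St A a q ↔ Full A (nm a q)

variable {X : Oracle}

/-- the block is the block of a true statement -/
def TS (A : Oracle) (v : List Bool) : Prop := ∃ a q, v = nm a q ∧ St A a q

theorem ts_nm {A : Oracle} {a : ℕ} {q : List Bool} : TS A (nm a q) ↔ St A a q := by
  constructor
  · rintro ⟨a', q', e, h⟩
    obtain ⟨rfl, rfl⟩ := nm_inj e
    exact h
  · exact fun h => ⟨a, q, rfl, h⟩

theorem ts_congr {A A' : Oracle} {v : List Bool}
    (h : ∀ s : List Bool, s.length < lvl v → A s = A' s) : TS A v ↔ TS A' v := by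
  refine exists_congr fun a => exists_congr fun q => and_congr_right fun e => ?_
  subst e
  exact st_congr h

open Classical in
/-- the canonical configuration -/
noncomputable def cc (A : Oracle) (v : List Bool) : Cfg := if TS A v then c1 v else c0 v

theorem canon {A₁ : Oracle} (n₀ : ℕ) (hb : ∀ s, ¬ RowBit s → A₁ s = Bs X s)
    (hu : ∀ v : List Bool, v.length < n₀ → Emp A₁ v ∨ Full A₁ v)
    (ht : ∀ a q, (nm a q).length < n₀ → (St A₁ a q ↔ Full A₁ (nm a q))) :
    ∃ A, IsWorld X A ∧ (∀ s : List Bool, s.length < lvn n₀ → A s = A₁ s) ∧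
      ∀ v : List Bool, n₀ ≤ v.length → cfg A v = cc A v := by
  classical
  obtain ⟨A, h1, h2⟩ := build A₁ n₀ cc (fun A v => by
    unfold cc
    split_ifs
    · exact (mem_O1.1 (c1_mem v)).1
    · exact (mem_O0.1 (c0_mem v)).1) (fun A A' v h => by
    unfold cc
    rw [ts_congr h])
  have hlow : ∀ s : List Bool, s.length < lvn n₀ → A s = A₁ s := fun s hs =>
    h1 s fun h => absurd h.length (not_le.2 hs)
  have hE : ∀ v : List Bool, v.length < n₀ → ∀ s : List Bool, s.length = lvl v → A₁ s = A s :=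
    fun v hv s hs => (hlow s (lt_of_le_of_lt (le_of_eq hs) (lvn_strict hv))).symm
  have hL : ∀ v : List Bool, v.length < n₀ → ∀ s : List Bool, s.length < lvl v → A₁ s = A s :=
    fun v hv s hs => (hlow s (lt_trans hs (lvn_strict hv))).symm
  refine ⟨A, ⟨fun s hs => ?_, fun v => ?_, fun a q => ?_⟩, hlow, h2⟩
  · rw [h1 s fun h => hs h.rowBit]
    exact hb s hs
  · by_cases hv : n₀ ≤ v.length
    · by_cases ht : TS A v
      · right
        unfold Full
        rw [h2 v hv, cc, if_pos ht]
        exact c1_mem v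
      · left
        unfold Emp
        rw [h2 v hv, cc, if_neg ht]
        exact c0_mem v
    · rw [← emp_congr (hE v (not_le.1 hv)), ← full_congr (hE v (not_le.1 hv))]
      exact hu v (not_le.1 hv)
  · by_cases hv : n₀ ≤ (nm a q).length
    · rw [← ts_nm (A := A)]
      by_cases ht : TS A (nm a q)
      · refine ⟨fun _ => ?_, fun _ => ht⟩
        unfold Full
        rw [h2 (nm a q) hv, cc, if_pos ht]
        exact c1_mem (nm a q)
      · have h3 : Emp A (nm a q) := by
          unfold Emp
          rw [h2 (nm a q) hv, cc, if_neg ht]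
          exact c0_mem (nm a q)
        exact ⟨fun h => absurd h ht, fun h => absurd h (not_full h3)⟩
    · rw [← full_congr (hE (nm a q) (not_le.1 hv)),
        ← st_congr (a := a) (q := q) (hL (nm a q) (not_le.1 hv))]
      exact ht a q (not_le.1 hv)

theorem exists_world (X : Oracle) : ∃ A, IsWorld X A := by
  obtain ⟨A, h, -⟩ := canon (X := X) (A₁ := Bs X) 0 (fun _ _ => rfl)
    (fun v h => absurd h (Nat.not_lt_zero _)) fun a q h => absurd h (Nat.not_lt_zero _)
  exact ⟨A, h⟩

/-- **Switching a block.** -/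
theorem switch {A₂ : Oracle} (hA : IsWorld X A₂) {n₀ : ℕ}
    (hcan : ∀ v : List Bool, n₀ ≤ v.length → cfg A₂ v = cc A₂ v) (Q₀ : Finset Qy)
    (hD : ∀ n, n₀ ≤ n → 2 * ∑ p ∈ Q₀, wt p ≤ 2 ^ Mn n) {v₀ : List Bool} (hv₀ : n₀ ≤ v₀.length)
    (hnm : ∀ a q, v₀ ≠ nm a q) :
    ∃ A, IsWorld X A ∧ (∀ s : List Bool, s.length < lvn n₀ → A s = A₂ s) ∧
      (∀ p ∈ Q₀, qv p A = qv p A₂) ∧ Full A v₀ := by
  classical
  obtain ⟨Q, hQ1, hQ2, hQ3⟩ := exists_closure A₂ Q₀ hD
  have hW : ∀ v : List Bool, n₀ ≤ v.length → ∑ p ∈ atl Q (lvl v), wt p ≤ 2 ^ Mn v.length :=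
    fun v hv => (Finset.sum_le_sum_of_subset (Finset.filter_subset _ _)).trans
      (hQ3.trans (hD _ hv))
  have hf1 : ∀ v : List Bool, ∃ f ∈ O1 (Sn v.length), n₀ ≤ v.length →
      ∀ p ∈ atl Q (lvl v), ct p v f = ct p v (c0 v) := by
    intro v
    by_cases hv : n₀ ≤ v.length
    · obtain ⟨f, h1, h2⟩ := c0_amb v (hW v hv)
      exact ⟨f, h1, fun _ => h2⟩
    · exact ⟨c1 v, c1_mem v, fun h => absurd h hv⟩
  have hf0 : ∀ v : List Bool, ∃ f ∈ O0 (Sn v.length),
      (∃ f ∈ O0 (Sn v.length), ∀ p ∈ atl Q (lvl v), ct p v f = ct p v (c1 v)) →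
      ∀ p ∈ atl Q (lvl v), ct p v f = ct p v (c1 v) := by
    intro v
    by_cases hv : ∃ f ∈ O0 (Sn v.length), ∀ p ∈ atl Q (lvl v), ct p v f = ct p v (c1 v)
    · obtain ⟨f, h1, h2⟩ := hv
      exact ⟨f, h1, fun _ => h2⟩
    · exact ⟨c0 v, c0_mem v, fun h => absurd h hv⟩
  choose f1 h11 h12 using hf1
  choose f0 h01 h02 using hf0
  set τ : Oracle → List Bool → Prop := fun A v => v = v₀ ∨ TS A v with hτ
  have hτc : ∀ A A' v, (∀ s : List Bool, s.length < lvl v → A s = A' s) → (τ A v ↔ τ A' v) :=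
    fun A A' v h => or_congr Iff.rfl (ts_congr h)
  set c : Oracle → List Bool → Cfg := fun A v => if τ A v then (if TS A₂ v then c1 v else f1 v)
    else (if TS A₂ v then f0 v else c0 v) with hc
  have hc1 : ∀ A v, τ A v → c A v ∈ O1 (Sn v.length) := by
    intro A v h
    simp only [hc]
    rw [if_pos h]
    split_ifs
    · exact c1_mem v
    · exact h11 v
  have hc0 : ∀ A v, ¬ τ A v → c A v ∈ O0 (Sn v.length) := by
    intro A v h
    simp only [hc]
    rw [if_neg h]
    split_ifs
    · exact h01 v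
    · exact c0_mem v
  obtain ⟨A, h1, h2⟩ := build A₂ n₀ c (fun A v => by
    by_cases h : τ A v
    · exact (mem_O1.1 (hc1 A v h)).1
    · exact (mem_O0.1 (hc0 A v h)).1) (fun A A' v h => by
    by_cases ht : τ A v
    · have ht' := (hτc A A' v h).1 ht
      simp only [hc]
      rw [if_pos ht, if_pos ht']
    · have ht' := fun h' => ht ((hτc A A' v h).2 h')
      simp only [hc]
      rw [if_neg ht, if_neg ht'])
  have hlow : ∀ s : List Bool, s.length < lvn n₀ → A s = A₂ s := fun s hs =>
    h1 s fun h => absurd h.length (not_le.2 hs)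
  have hE : ∀ v : List Bool, v.length < n₀ → ∀ s : List Bool, s.length = lvl v → A₂ s = A s :=
    fun v hv s hs => (hlow s (lt_of_le_of_lt (le_of_eq hs) (lvn_strict hv))).symm
  have hL : ∀ v : List Bool, v.length < n₀ → ∀ s : List Bool, s.length < lvl v → A₂ s = A s :=
    fun v hv s hs => (hlow s (lt_trans hs (lvn_strict hv))).symm
  have hfull : ∀ v : List Bool, n₀ ≤ v.length → τ A v → Full A v := by
    intro v hv h
    unfold Full
    rw [h2 v hv]
    exact hc1 A v h
  have hemp : ∀ v : List Bool, n₀ ≤ v.length → ¬ τ A v → Emp A v := by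
    intro v hv h
    unfold Emp
    rw [h2 v hv]
    exact hc0 A v h
  -- the values of the queries do not change
  have hval : ∀ m, ∀ p ∈ Q, ql p = m → qv p A = qv p A₂ := by
    intro m
    induction m using Nat.strong_induction_on with
    | _ m ih =>
      intro p hp hpm
      refine qv_same (fun s _ hs => h1 s fun h => hs h.rowBit) fun v hv => ?_
      by_cases hn : n₀ ≤ v.length
      swap
      · rw [cfg_congr (hE v (not_le.1 hn))]
      have hpa : p ∈ atl Q (lvl v) := Finset.mem_filter.2 ⟨hp, hv⟩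
      rw [h2 v hn, hcan v hn]
      simp only [hc, cc]
      by_cases ht : τ A v
      · rw [if_pos ht]
        by_cases ht2 : TS A₂ v
        · rw [if_pos ht2, if_pos ht2]
        · rw [if_neg ht2, if_neg ht2]
          exact h12 v hn p hpa
      · rw [if_neg ht]
        by_cases ht2 : TS A₂ v
        · rw [if_pos ht2, if_pos ht2]
          refine h02 v ?_ p hpa
          by_contra hna
          obtain ⟨a, q, rfl, hst⟩ := ht2
          refine ht (Or.inr ⟨a, q, rfl, hQ2 _ hn a q rfl hst hna A fun p' hp' hlt => ?_⟩)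
          exact ih (ql p') (by omega) p' hp' rfl
        · rw [if_neg ht2, if_neg ht2]
  refine ⟨A, ⟨fun s hs => ?_, fun v => ?_, fun a q => ?_⟩, hlow, fun p hp =>
    hval _ p (hQ1 hp) rfl, hfull v₀ hv₀ (Or.inl rfl)⟩
  · rw [h1 s fun h => hs h.rowBit]
    exact hA.base s hs
  · by_cases hv : n₀ ≤ v.length
    · by_cases ht : τ A v
      · exact Or.inr (hfull v hv ht)
      · exact Or.inl (hemp v hv ht)
    · rw [← emp_congr (hE v (not_le.1 hv)), ← full_congr (hE v (not_le.1 hv))]
      exact hA.uniq v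
  · by_cases hv : n₀ ≤ (nm a q).length
    · rw [← ts_nm (A := A)]
      constructor
      · exact fun h => hfull (nm a q) hv (Or.inr h)
      · intro h
        by_contra ht
        have h3 : ¬ τ A (nm a q) := by
          rintro (e | h)
          · exact hnm a q e.symm
          · exact ht h
        exact not_full (hemp (nm a q) hv h3) h
    · rw [← full_congr (hE (nm a q) (not_le.1 hv)),
        ← st_congr (a := a) (q := q) (hL (nm a q) (not_le.1 hv))]
      exact hA.truth a q

/-! ### topology -/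

theorem clopen_of_agree {P : Oracle → Prop} (N : ℕ)
    (h : ∀ A A' : Oracle, (∀ s : List Bool, s.length ≤ N → A s = A' s) → (P A ↔ P A')) :
    IsClopen {A | P A} :=
  clopen_of_local fun g₀ => ⟨_, open_agree g₀ N, fun _ _ => rfl, fun g hg => h g g₀ hg⟩

theorem closed_world (X : Oracle) : IsClosed {A | IsWorld X A} := by
  have h : {A | IsWorld X A} = (⋂ s, {A : Oracle | ¬ RowBit s → A s = Bs X s}) ∩
      ((⋂ v, {A | Emp A v ∨ Full A v}) ∩ ⋂ a, ⋂ q, {A | St A a q ↔ Full A (nm a q)}) := by
    ext A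
    simp only [mem_ofPred_eq, mem_inter_iff, mem_iInter]
    exact ⟨fun h => ⟨h.base, h.uniq, h.truth⟩, fun h => ⟨h.1, h.2.1, h.2.2⟩⟩
  rw [h]
  refine (isClosed_iInter fun s => ?_).inter ((isClosed_iInter fun v => ?_).inter
    (isClosed_iInter fun a => isClosed_iInter fun q => ?_))
  · exact (clopen_of_agree s.length fun A A' h => by rw [h s le_rfl]).1
  · exact (clopen_of_agree (lvl v) fun A A' h =>
      by rw [emp_congr fun s hs => h s hs.le, full_congr fun s hs => h s hs.le]).1
  · exact (clopen_of_agree (lvl (nm a q)) fun A A' h => by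
      rw [st_congr fun s hs => h s hs.le, full_congr fun s hs => h s hs.le]).1

/-- the test language -/
def LT (A : Oracle) : Set (List Bool) := {x | Full A (false :: x)}

open Classical in
/-- the oracle decided by the machine `N` within the time `poly d` over the extended oracle -/
noncomputable def dk (N : Machine) (d : ℕ) (A : Oracle) : Oracle :=
  fun s => decide (AcceptsIn (ex A) N s [] (poly d s.length))

theorem dk_congr {N : Machine} {d : ℕ} {A A' : Oracle} {s : List Bool}
    (h : ∀ r ∈ asked (ex A) N (poly d s.length) (start N s []), ex A' r = ex A r) :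
    dk N d A' s = dk N d A s := by
  classical
  refine decide_eq_decide.2 (accepts_congr (O := ex A) (O' := ex A') h)

theorem dk_len {N : Machine} {d m : ℕ} {A : Oracle} {s r : List Bool} (hs : s.length ≤ m)
    (h : r ∈ asked (ex A) N (poly d s.length) (start N s [])) : r.length ≤ m + poly d m := by
  have h1 := asked_start_len _ _ _ _ _ r h
  have h2 : poly d s.length ≤ poly d m := by
    unfold poly
    gcongr
  simp only [List.length_nil, Nat.max_zero] at h1
  have h3 : max s.length 0 = s.length := Nat.max_zero _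
  omega

theorem dk_local {N : Machine} {d m : ℕ} {A A' : Oracle} {s : List Bool} (hs : s.length ≤ m)
    (h : Agree (bk (m + poly d m)) A A') : dk N d A s = dk N d A' s := by
  refine (dk_congr fun r hr => ?_).symm
  exact (ex_congr (h.mono (bk_mono (dk_len hs hr)))).symm

/-- nondeterministic acceptance -/
def NAc (N : Machine) (d : ℕ) (M : Machine) (T : ℕ → ℕ) (A : Oracle) (x : List Bool) : Prop :=
  ∃ w : List Bool, w.length ≤ T x.length ∧ AcceptsIn (dk N d A) M x w (T x.length)

/-- the requirement -/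
def Rq (N : Machine) (d : ℕ) (M : Machine) (T : ℕ → ℕ) : Set Oracle :=
  {A | ∃ x, ¬ (x ∉ LT A ↔ NAc N d M T A x)}

theorem open_rq (N : Machine) (d : ℕ) (M : Machine) (T : ℕ → ℕ) : IsOpen (Rq N d M T) := by
  have h : Rq N d M T = ⋃ x, {A | ¬ (x ∉ LT A ↔ NAc N d M T A x)} := by
    ext A
    simp only [Rq, mem_ofPred_eq, mem_iUnion]
  rw [h]
  refine isOpen_iUnion fun x => ?_
  obtain ⟨m, hm⟩ : ∃ m, m = x.length + 2 * T x.length := ⟨_, rfl⟩
  refine (clopen_of_agree (lvl (false :: x) + bk (m + poly d m)) fun A A' h => ?_).2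
  refine not_congr (iff_congr (not_congr (full_congr fun s hs => h s (by omega))) ?_)
  refine exists_congr fun w => and_congr_right fun hw => ?_
  have h1 : ∀ A A' : Oracle, (∀ s : List Bool,
      s.length ≤ lvl (false :: x) + bk (m + poly d m) → A s = A' s) →
      AcceptsIn (dk N d A) M x w (T x.length) → AcceptsIn (dk N d A') M x w (T x.length) := by
    intro A A' h hacc
    refine (accepts_congr (O := dk N d A) (O' := dk N d A') fun s hs => ?_).2 hacc
    have h2 := asked_start_len _ _ _ _ _ s hs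
    have h3 : max x.length w.length ≤ x.length + T x.length := max_le (by omega) (by omega)
    exact (dk_local (m := m) (by omega) fun r hr => h r (by omega)).symm
  exact ⟨h1 A A' h, h1 A' A fun s hs => (h s hs).symm⟩

theorem sub_bk {g : ℕ → ℕ} (hg : Sub g) : Sub fun n => bk (g n) := sub_add hg (sub_poly hg _)

theorem dense_rq (N : Machine) (d : ℕ) (M : Machine) {T : ℕ → ℕ} (hT : Sub T) {U : Set Oracle}
    (hU : IsOpen U) {A₁ : Oracle} (hA₁U : A₁ ∈ U) (hA₁ : IsWorld X A₁) :
    ∃ A ∈ U, IsWorld X A ∧ A ∈ Rq N d M T := by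
  classical
  obtain ⟨I, u, h1, h2⟩ := isOpen_pi_iff.1 hU A₁ hA₁U
  have hN : ∀ g : Oracle, (∀ s : List Bool, s.length ≤ I.sup List.length → g s = A₁ s) →
      g ∈ U := by
    intro g hg
    refine h2 fun i hi => ?_
    rw [hg i (Finset.le_sup (Finset.mem_coe.1 hi))]
    exact (h1 i (Finset.mem_coe.1 hi)).2
  have hm : Sub fun n => n + 2 * T n := sub_add sub_id (sub_mul (sub_const 2) hT)
  have hsub : Sub fun n => 2 * (T n * (poly d (n + 2 * T n) *
      (bk (n + 2 * T n + poly d (n + 2 * T n)) + 1))) :=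
    sub_mul (sub_const 2) (sub_mul hT (sub_mul (sub_poly hm d)
      (sub_add (sub_bk (sub_add hm (sub_poly hm d))) (sub_const 1))))
  obtain ⟨n, hn1, hn2⟩ := ((hsub 1).and (eventually_ge_atTop (I.sup List.length))).exists
  simp only [pow_one] at hn1
  have hl : (List.replicate n false).length = n := List.length_replicate
  set v₀ : List Bool := false :: List.replicate n false with hv₀
  have hv₀l : v₀.length = n + 1 := by rw [hv₀, List.length_cons, hl]
  have hv₀n : ∀ a q, v₀ ≠ nm a q := fun a q h => absurd (List.cons.inj h).1 (by decide)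
  have hlv : n < lvn (n + 1) := by
    unfold lvn
    omega
  have hU' : ∀ A : Oracle, (∀ s : List Bool, s.length < lvn (n + 1) → A s = A₁ s) → A ∈ U :=
    fun A hA => hN A fun s hs => hA s (by omega)
  obtain ⟨A₂, hW2, hag2, hcan⟩ := canon (X := X) (n + 1) hA₁.base (fun v _ => hA₁.uniq v)
    fun a q _ => hA₁.truth a q
  have hx2 : List.replicate n false ∉ LT A₂ := by
    refine not_full ?_
    show Emp A₂ v₀
    unfold Emp
    rw [hcan v₀ hv₀l.ge, cc, if_neg]
    · exact c0_mem _
    · rintro ⟨a, q, e, -⟩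
      exact hv₀n a q e
  by_cases hacc : NAc N d M T A₂ (List.replicate n false)
  · obtain ⟨w, hw, hacc⟩ := hacc
    rw [hl] at hw hacc
    set m := n + 2 * T n with hmd
    set l := asked (dk N d A₂) M (T n) (start M (List.replicate n false) w) with hl'
    have hlen : l.length ≤ T n := asked_card _ _ _ _
    have hsl : ∀ s ∈ l, s.length ≤ m := by
      intro s hs
      have e2 := asked_start_len _ _ _ _ _ s hs
      have e4 : max (List.replicate n false).length w.length ≤ n + T n :=
        max_le (by rw [hl]; omega) (by omega)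
      omega
    let qs : List Bool → Finset Qy := fun s =>
      (asked (ex A₂) N (poly d s.length) (start N s [])).toFinset.image fun r => ((true, r) : Qy)
    have hqs : ∀ s ∈ l, ∑ p ∈ qs s, wt p ≤ poly d m * (bk (m + poly d m) + 1) := by
      intro s hs
      have e1 : (qs s).card ≤ poly d m := by
        refine Finset.card_image_le.trans ((List.toFinset_card_le _).trans
          ((asked_card _ _ _ _).trans ?_))
        unfold poly
        have := hsl s hs
        gcongr
      refine (Finset.sum_le_card_nsmul _ _ (bk (m + poly d m) + 1) fun p hp => ?_).trans ?_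
      · obtain ⟨r, hr, rfl⟩ := Finset.mem_image.1 hp
        exact Nat.succ_le_succ (bk_mono (dk_len (hsl s hs) (List.mem_toFinset.1 hr)))
      · rw [smul_eq_mul]
        exact Nat.mul_le_mul_right _ e1
    have hwt : ∑ p ∈ l.toFinset.biUnion qs, wt p ≤
        T n * (poly d m * (bk (m + poly d m) + 1)) := by
      refine (Alg3.sum_biUnion_le _ _ _).trans ((Finset.sum_le_card_nsmul _ _ _ fun s hs =>
        hqs s (List.mem_toFinset.1 hs)).trans ?_)
      rw [smul_eq_mul]
      exact Nat.mul_le_mul_right _ ((List.toFinset_card_le _).trans hlen)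
    obtain ⟨A₃, hW3, hag3, hq3, hF3⟩ := switch hW2 hcan (l.toFinset.biUnion qs) (fun k hk => by
        have e1 := mn_ge k
        have e2 : 2 ^ n ≤ 2 ^ Mn k := Nat.pow_le_pow_right (by norm_num) (by omega)
        have e3 := Nat.mul_le_mul_left 2 hwt
        exact e3.trans (hn1.trans e2)) hv₀l.ge hv₀n
    refine ⟨A₃, hU' A₃ fun s hs => (hag3 s hs).trans (hag2 s hs), hW3,
      List.replicate n false, fun h => ?_⟩
    refine h.2 ⟨w, by rw [hl]; exact hw, ?_⟩ hF3
    rw [hl]
    refine (accepts_congr (O := dk N d A₂) (O' := dk N d A₃) fun s hs => ?_).2 hacc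
    refine dk_congr fun r hr => ?_
    exact hq3 (true, r) (Finset.mem_biUnion.2 ⟨s, List.mem_toFinset.2 hs,
      Finset.mem_image.2 ⟨r, List.mem_toFinset.2 hr, rfl⟩⟩)
  · exact ⟨A₂, hU' A₂ hag2, hW2, List.replicate n false, fun h => hacc (h.1 hx2)⟩

/-- **Generic worlds.** -/
theorem exists_gen (X : Oracle) (T : ℕ → ℕ → ℕ) (hT : Subexponential T) :
    ∃ A, IsWorld X A ∧ ∀ N d M c, A ∈ Rq N d M (T c) := by
  obtain ⟨A, hA, hG⟩ := baire_closure {A | IsWorld X A} (exists_world X)
    (fun p : Machine × ℕ × Machine × ℕ => Rq p.1 p.2.1 p.2.2.1 (T p.2.2.2))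
    (fun p => open_rq _ _ _ _) (by
      rintro ⟨N, d, M, c⟩ U hU ⟨A₁, hA₁U, hA₁⟩
      obtain ⟨A, h1, h2, h3⟩ := dense_rq N d M (hT c) hU hA₁U hA₁
      exact ⟨A, ⟨h1, subset_closure h2⟩, h3⟩)
  rw [(closed_world X).closure_eq] at hA
  exact ⟨A, hA, fun N d M c => hG (N, d, M, c)⟩

end ESY.Alg6
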